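import Pool.Agent.Lib.MP_d7b9cc_gt.U.Pair

/-! Smooth shifts inside the windows. -/

open Finset Function
open scoped ContDiff

namespace Pool.Agent.Lib.BallU

variable {N T : ℕ} {η : ℝ} {L O : (Fin N → ℕ) → ℝ}

/-- A smooth selection from convex sets that admit local constants. -/
theorem exists_smooth_sel {t : (Fin (N + 1) → ℝ) → Set ℝ} (hc : ∀ q, Convex ℝ (t q))
    (hl : ∀ q₀ : Fin (N + 1) → ℝ, ∃ σ, ∀ q : Fin (N + 1) → ℝ,
      (∀ i, |q i - q₀ i| < 1 / 2) → σ ∈ t q) :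
    ∃ g : (Fin (N + 1) → ℝ) → ℝ, ContDiff ℝ ∞ g ∧ ∀ q, g q ∈ t q := by
  obtain ⟨g, hg⟩ := exists_contMDiffMap_forall_mem_convex_of_local_const (n := ⊤)
    (modelWithCornersSelf ℝ (Fin (N + 1) → ℝ)) hc fun q₀ => by
      obtain ⟨σ, h⟩ := hl q₀
      refine ⟨σ, ?_⟩
      filter_upwards [Metric.ball_mem_nhds q₀ (by norm_num : (0 : ℝ) < 1 / 2)] with q hq
      refine h q fun i => ?_
      rw [← Real.dist_eq]
      exact (dist_pi_lt_iff (by norm_num)).1 hq i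
  exact ⟨g, g.contMDiff.contDiff, hg⟩

/-- Flattening in the time coordinate at the integers. -/
theorem exists_flat {g : (Fin (N + 1) → ℝ) → ℝ} (hg : ContDiff ℝ ∞ g) :
    ∃ s : (Fin (N + 1) → ℝ) → ℝ, ContDiff ℝ ∞ s ∧
      (∀ (A : Fin (N + 1) → ℝ) (j : ℤ), A 0 = j → fderiv ℝ s A (Pi.single 0 1) = 0) ∧
      ∀ A, ∃ X, |A 0 - X| ≤ 1 / 2 ∧ s A = g (update A 0 X) := by
  have hπ := Real.pi_pos
  set φ : ℝ → ℝ := fun X => X - Real.sin (2 * Real.pi * X) / (2 * Real.pi) with hφ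
  have h1 : ContDiff ℝ ∞ φ := by simp only [hφ]; fun_prop
  have h2 : ContDiff ℝ ∞ fun A : Fin (N + 1) → ℝ => update A 0 (φ (A 0)) := by
    refine contDiff_pi.2 fun i => ?_
    by_cases hi : i = 0
    · subst hi
      simp only [update_self]
      exact h1.comp (contDiff_apply ℝ ℝ (0 : Fin (N + 1)))
    · simpa only [update_of_ne hi] using contDiff_apply ℝ ℝ i
  have h3 : ContDiff ℝ ∞ fun A : Fin (N + 1) → ℝ => g (update A 0 (φ (A 0))) := hg.comp h2
  refine ⟨_, h3, fun A j hj => ?_, fun A => ⟨φ (A 0), ?_, rfl⟩⟩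
  · have e1 : HasDerivAt (fun t : ℝ => A + t • (Pi.single 0 1 : Fin (N + 1) → ℝ))
        (Pi.single 0 1) 0 := by
      simpa using ((hasDerivAt_id (0 : ℝ)).smul_const (Pi.single 0 1 : Fin (N + 1) → ℝ)).const_add A
    have e2 := ((h3.differentiable (by simp) A).hasFDerivAt.comp_hasDerivAt_of_eq 0 e1 (by simp))
    have e3 : HasDerivAt φ 0 (A 0 + 0) := by
      have e := (hasDerivAt_id (A 0 + 0)).sub
        (((hasDerivAt_id (A 0 + 0)).const_mul (2 * Real.pi)).sin.div_const (2 * Real.pi))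
      have e' : Real.cos (2 * Real.pi * id (A 0 + 0)) = 1 := by
        rw [id, add_zero, hj, mul_comm, Real.cos_int_mul_two_pi]
      rw [e', mul_one, one_mul, div_self (by positivity), sub_self] at e
      exact e
    have e4 : HasDerivAt (fun t : ℝ => update A 0 (φ (A 0 + t))) 0 0 := by
      refine hasDerivAt_pi.2 fun i => ?_
      by_cases hi : i = 0
      · subst hi
        simpa only [update_self, Pi.zero_apply] using e3.comp_const_add (A 0) 0
      · simpa only [update_of_ne hi, Pi.zero_apply] using hasDerivAt_const (0 : ℝ) (A i)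
    have e5 := (hg.differentiable (by simp) _).hasFDerivAt.comp_hasDerivAt (0 : ℝ) e4
    rw [map_zero] at e5
    refine e2.unique (e5.congr_of_eventuallyEq (Filter.Eventually.of_forall fun t => ?_))
    simp only [Function.comp]
    congr 1
    funext i
    by_cases hi : i = 0
    · subst hi
      simp
    · simp [hi]
  · simp only [hφ]
    rw [sub_sub_cancel, abs_div, abs_of_pos (by positivity : 0 < 2 * Real.pi),
      div_le_iff₀ (by positivity)]
    linarith [Real.abs_sin_le_one (2 * Real.pi * A 0), Real.pi_gt_three]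

theorem step (hη : 0 < η) (hL : Adm T η L) (k : Fin N) (hO : Inv T k L O) (K : ℕ) :
    ∃ s : (Fin (N + 1) → ℝ) → ℝ, ContDiff ℝ ∞ s ∧
      (∀ (A : Fin (N + 1) → ℝ) (j : ℤ), A 0 = j → fderiv ℝ s A (Pi.single 0 1) = 0) ∧
      ∀ A t, Q T (nxt N η K) L O k A → 0 < t → t ≤ A k.succ + 1 →
        Q T K L (RR T k O) (k + 1) (update A k.succ (t + s (update A k.succ 0))) := by
  obtain ⟨g, hg, hg'⟩ := exists_smooth_sel (N := N) (t := fun q => {σ | 0 ≤ σ ∧
      ∀ A, Q T (nxt N η K) L O k A → (∀ i : Fin N, i ≠ k → A i.succ = q i.succ) →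
        |A 0 - q 0| ≤ 1 / 2 → wlo T K O k A ≤ σ ∧ σ + A k.succ + 2 ≤ whi T K L k A})
    (fun q => Set.OrdConnected.convex ⟨fun x hx y hy z hz => ⟨hx.1.trans hz.1, fun A h1 h2 h3 =>
      ⟨(hx.2 A h1 h2 h3).1.trans hz.1, by linarith [(hy.2 A h1 h2 h3).2, hz.2]⟩⟩⟩) fun q₀ => by
    set S : Set ℝ := insert 0 (wlo T K O k '' {A | Q T (nxt N η K) L O k A ∧
      (∀ i : Fin N, i ≠ k → |A i.succ - q₀ i.succ| < 1 / 2) ∧ |A 0 - q₀ 0| < 1}) with hS
    have hb : BddAbove S := by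
      refine BddAbove.insert _ ⟨T, ?_⟩
      rintro _ ⟨A, -, rfl⟩
      unfold wlo
      exact_mod_cast (cnt_le _ _ _).trans (Nat.sub_le _ _)
    refine ⟨sSup S, fun q hq => ⟨le_csSup hb (Set.mem_insert _ _), fun A h1 h2 h3 => ?_⟩⟩
    have h4 : ∀ i : Fin N, i ≠ k → |A i.succ - q₀ i.succ| < 1 / 2 := fun i hi => by
      rw [h2 i hi]; exact hq _
    have h5 : |A 0 - q₀ 0| < 1 := by linarith [abs_sub_le (A 0) (q 0) (q₀ 0), hq 0]
    refine ⟨le_csSup hb (Set.mem_insert_of_mem _ ⟨A, ⟨h1, h4, h5⟩, rfl⟩), ?_⟩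
    have h6 : sSup S ≤ whi T K L k A - A k.succ - 2 := by
      refine csSup_le ⟨0, Set.mem_insert _ _⟩ ?_
      rintro _ (rfl | ⟨B, ⟨b1, b2, b3⟩, rfl⟩)
      · have h7 := pair hη hL k hO K h1 h1 (fun i _ => by simp) (by simp)
        have h8 : 0 ≤ wlo T K O k A := Nat.cast_nonneg _
        linarith
      · have h7 := pair hη hL k hO K b1 h1 (fun i hi => by
          linarith [abs_sub_le (B i.succ) (q₀ i.succ) (A i.succ), b2 i hi, h4 i hi,
            abs_sub_comm (q₀ i.succ) (A i.succ)]) (by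
          linarith [abs_sub_le (B 0) (q₀ 0) (A 0), abs_sub_comm (q₀ 0) (A 0)])
        linarith
    linarith
  obtain ⟨s, h1, h2, h3⟩ := exists_flat hg
  refine ⟨s, h1, h2, fun A t hA t0 t1 => ?_⟩
  obtain ⟨X, hX, e⟩ := h3 (update A k.succ 0)
  rw [update_of_ne (Fin.succ_ne_zero k).symm] at hX
  obtain ⟨a0, a1⟩ := hg' (update (update A k.succ 0) 0 X)
  obtain ⟨a2, a3⟩ := a1 A hA (fun i hi => by
    rw [update_of_ne (Fin.succ_ne_zero i), update_of_ne ((Fin.succ_injective _).ne hi)])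
    (by rwa [update_self])
  rw [e]
  exact window (hL.zero hη.le) k K _ hA (by linarith) (by linarith) (by linarith)

theorem step0 (hL : Adm T 0 L) {K W : ℕ} {ρ : ℝ} (h1 : ρ + K + N + 1 ≤ T)
    (h2 : ρ + 1 + 2 * K + 2 * N ≤ W) :
    ∃ s : (Fin (N + 1) → ℝ) → ℝ, ContDiff ℝ ∞ s ∧
      ∀ (A : Fin (N + 1) → ℝ) (t : ℝ), (∀ i, 0 ≤ A i) → ∑ i, A i ≤ ρ → 0 < t → t ≤ A 0 + 1 →
        Q T K L (OO T W L 0) 0 (update A 0 (t + s (update A 0 0))) := by
  have ht : ∀ q : Fin (N + 1) → ℝ, (∀ i : Fin N, 0 ≤ q i.succ) →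
      (tot (fl q) : ℝ) ≤ ∑ i : Fin N, q i.succ := fun q hq => by
    unfold tot
    push_cast
    exact sum_le_sum fun i _ => Nat.floor_le (hq i)
  have K0 : (0 : ℝ) ≤ K := Nat.cast_nonneg _
  have N0 : (0 : ℝ) ≤ N := Nat.cast_nonneg _
  have ht' : ∀ q : Fin (N + 1) → ℝ, (∀ i : Fin N, 0 ≤ q i.succ) → ∑ i : Fin N, q i.succ ≤ ρ →
      tot (fl q) < T := fun q hq hq' => by
    have : (tot (fl q) : ℝ) < T := by linarith [ht q hq]
    exact_mod_cast this
  have hn := @near_le N T L fun c i hc => ⟨hL.hi c i hc, by linarith [hL.lo c i hc]⟩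
  obtain ⟨g, hg, hg'⟩ := exists_smooth_sel (N := N) (t := fun q => {σ |
      (∀ i : Fin N, 0 ≤ q i.succ) → ∑ i : Fin N, q i.succ ≤ ρ →
        L (fl q) + K ≤ σ ∧ σ ≤ L (fl q) + W - ρ - 1 - K})
    (fun q => Set.OrdConnected.convex ⟨fun x hx y hy z hz a b =>
      ⟨(hx a b).1.trans hz.1, hz.2.trans (hy a b).2⟩⟩) fun q₀ => by
    by_cases h : ∃ p : Fin (N + 1) → ℝ, (∀ i, |p i - q₀ i| < 1 / 2) ∧
        (∀ i : Fin N, 0 ≤ p i.succ) ∧ ∑ i : Fin N, p i.succ ≤ ρ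
    · obtain ⟨p, p1, p2, p3⟩ := h
      refine ⟨L (fl p) + K + N, fun q hq q2 q3 => ?_⟩
      have e : ∀ i : Fin N, fl p i ≤ fl q i + 1 ∧ fl q i ≤ fl p i + 1 := fun i => fl_near (by
        linarith [abs_sub_le (p i.succ) (q₀ i.succ) (q i.succ), p1 i.succ, hq i.succ,
          abs_sub_comm (q₀ i.succ) (q i.succ)])
      have e1 := hn (ht' p p2 p3) (ht' q q2 q3) e
      have e2 := hn (ht' q q2 q3) (ht' p p2 p3) fun i => (e i).symm
      constructor <;> linarith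
    · exact ⟨0, fun q hq q2 q3 => absurd ⟨q, hq, q2, q3⟩ h⟩
  refine ⟨g, hg, fun A t hA hρ t0 t1 => ?_⟩
  rw [Fin.sum_univ_succ] at hρ
  have hu : ∀ (x : ℝ) (i : Fin N), update A 0 x i.succ = A i.succ := fun x i =>
    update_of_ne (Fin.succ_ne_zero i) _ _
  have hf : ∀ x : ℝ, fl (update A 0 x) = fl A := fun x => by
    funext i
    rw [fl, fl, hu]
  have a0 := hA 0
  obtain ⟨a1, a2⟩ := hg' (update A 0 0) (fun i => by rw [hu]; exact hA _) (by
    simp only [hu]; linarith)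
  have a3 := ht A fun i => hA _
  rw [hf] at a1 a2
  refine ⟨fun i => by rw [hu]; exact hA _, fun i hi => absurd hi (Nat.not_lt_zero _), ?_, ?_, ?_⟩
  · rw [hf]
    have : (tot (fl A) : ℝ) + K ≤ T := by linarith
    exact_mod_cast this
  · rw [hf, update_self]
    linarith
  · rw [hf, update_self]
    have : (W : ℝ) ≤ ((W - tot (fl A) : ℕ) : ℝ) + tot (fl A) := by exact_mod_cast le_tsub_add
    show _ ≤ L (fl A) + ((W - tot (fl A) : ℕ) : ℝ)
    linarith

end Pool.Agent.Lib.BallU
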