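import Pool.Agent.Lib.MP_d7b9cc_gt.U.Sub
import Pool.Agent.Lib.MP_d7b9cc_gt.U.Step

/-! The data in unit cells, the choice of the mesh, and the scaling. -/

open Finset Function
open scoped ContDiff

namespace Pool.Agent.Lib.BallU

/-- The data in unit cells. -/
theorem data_unit (N T W B : ℕ) {B' η ρ : ℝ} (h0 : 0 < η) (h1 : η ≤ 1) (hρ : 0 ≤ ρ)
    (hT : ρ + ((nxt N η)^[N] (N + 1) : ℕ) + N + 1 ≤ T)
    (hW : ρ + 1 + 2 * ((nxt N η)^[N] (N + 1) : ℕ) + 2 * N ≤ W)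
    (hv : ((W : ℝ) + N) ^ (N + 1) < (N + 1) * B' * (T : ℝ) ^ N) (hB : B' + η * T ≤ B) :
    ∃ s S, Data N T B ρ 1 s S := by
  have hT0 : 0 < T := by
    have e1 : (0 : ℝ) ≤ (((nxt N η)^[N] (N + 1) : ℕ) : ℝ) := Nat.cast_nonneg _
    have e2 : (0 : ℝ) ≤ N := Nat.cast_nonneg _
    have e3 : (0 : ℝ) < T := by linarith
    exact_mod_cast e3
  obtain ⟨L, hL, hO⟩ := exists_sub N T W hT0 h0.le h1 hv
  have hL0 := hL.zero h0.le
  obtain ⟨s0, hs0, ht0⟩ := step0 (K := (nxt N η)^[N] (N + 1)) (W := W) hL0 hT hW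
  choose f hf1 hf2 hf3 using fun k : Fin N =>
    step h0 hL k (inv_OO hL0 W k k.2.le) ((nxt N η)^[N - (k + 1)] (N + 1))
  refine ⟨fun j => Nat.casesOn j s0 fun k => if h : k < N then f ⟨k, h⟩ else fun _ => 0,
    fun j => Nat.casesOn j {A | (∀ i, 0 ≤ A i) ∧ ∑ i, A i ≤ ρ}
      fun k => {A | Q T ((nxt N η)^[N - k] (N + 1)) L (OO T W L k) k A},
    one_pos, ?_, ?_, ?_, ?_, ?_, ?_⟩
  · rintro (_ | k)
    · exact hs0
    · show ContDiff ℝ ∞ (if h : k < N then f ⟨k, h⟩ else fun _ => 0)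
      split_ifs with h
      · exact hf1 _
      · exact contDiff_const
  · rintro (_ | k) hk A j hA
    · omega
    · show fderiv ℝ (if h : k < N then f ⟨k, h⟩ else fun _ => 0) A (Pi.single 0 1) = 0
      split_ifs with h
      · exact hf2 _ A (j * B) (by rw [hA]; push_cast; ring)
      · simp
  · intro A hA1 hA2
    exact And.intro hA1 hA2
  · intro k
    refine Fin.cases ?_ (fun k => ?_) k
    · intro A hA t ht1 ht2
      exact ht0 A t hA.1 hA.2 ht1 ht2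
    · intro A hA t ht1 ht2
      have hA' : Q T ((nxt N η)^[N - k] (N + 1)) L (OO T W L k) k A := hA
      have e : N - (k : ℕ) = (N - (k + 1)) + 1 := by
        have := k.2
        omega
      rw [e, Function.iterate_succ_apply'] at hA'
      have h3 := hf3 k A t hA' ht1 ht2
      show Q T ((nxt N η)^[N - (k + 1)] (N + 1)) L (OO T W L (k + 1)) (k + 1)
        (update A k.succ (t + (if h : (k : ℕ) < N then f ⟨k, h⟩ else fun _ => 0)
          (update A k.succ 0)))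
      rw [OO, dif_pos k.2, dif_pos k.2]
      exact h3
  · intro A hA
    have hA' : Q T ((nxt N η)^[N - N] (N + 1)) L (OO T W L N) N A := hA
    rw [Nat.sub_self, Function.iterate_zero_apply] at hA'
    refine ⟨fun i => hA'.pos i i.2, ?_⟩
    have e1 : ∑ i : Fin N, A i.succ ≤ ∑ i : Fin N, ((fl A i : ℝ) + 1) :=
      sum_le_sum fun i _ => (Nat.lt_floor_add_one _).le
    have e2 : ∑ i : Fin N, ((fl A i : ℝ) + 1) = (tot (fl A) : ℝ) + N := by
      rw [sum_add_distrib, tot, Nat.cast_sum]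
      simp
    have e3 : ((tot (fl A) + (N + 1) : ℕ) : ℝ) ≤ T := Nat.cast_le.2 hA'.mar
    push_cast at e3
    linarith
  · intro A hA A' hA2 hE j hj
    have hA' : Q T ((nxt N η)^[N - N] (N + 1)) L (OO T W L N) N A := hA
    have hA3 : Q T ((nxt N η)^[N - N] (N + 1)) L (OO T W L N) N A' := hA2
    rw [Nat.sub_self, Function.iterate_zero_apply] at hA' hA3
    have e : fl A' = fl A := by
      funext i
      rw [fl, fl, hE i]
    have hc : tot (fl A) < T := by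
      have := hA'.mar
      omega
    have a1 := hA'.lo
    have a2 := hA'.hi
    have a3 := hA3.lo
    have a4 := hA3.hi
    rw [e] at a3 a4
    have a5 := hO _ hc
    have a6 : (0 : ℝ) < ((N + 1 : ℕ) : ℝ) := by positivity
    have b0 : (0 : ℝ) < B := by linarith
    have b1 : (j : ℝ) * B < 1 * B := by linarith
    have b2 : (-1 : ℝ) * B < j * B := by linarith
    have b3 : j < 1 := by exact_mod_cast lt_of_mul_lt_mul_right b1 b0.le
    have b4 : -1 < j := by exact_mod_cast lt_of_mul_lt_mul_right b2 b0.le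
    omega

theorem Data.scale {N : ℕ} {a a' b ρ ε δ : ℝ} {s : ℕ → (Fin (N + 1) → ℝ) → ℝ}
    {S : ℕ → Set (Fin (N + 1) → ℝ)} (h : Data N a b ρ ε s S) (hδ : 0 < δ) (ha : δ * a ≤ a') :
    ∃ s' S', Data N a' (δ * b) (δ * ρ) (δ * ε) s' S' := by
  have hi : 0 < δ⁻¹ := inv_pos.2 hδ
  have hu : ∀ (A : Fin (N + 1) → ℝ) (k : Fin (N + 1)) (x : ℝ),
      δ⁻¹ • update A k x = update (δ⁻¹ • A) k (δ⁻¹ * x) := by
    intro A k x
    funext i
    by_cases e : i = k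
    · subst e
      simp
    · simp [update_of_ne e]
  refine ⟨fun k A => δ * s k (δ⁻¹ • A), fun k => {A | δ⁻¹ • A ∈ S k}, mul_pos hδ h.eps,
    fun k => ?_, fun k hk A j hA => ?_, fun A hA1 hA2 => ?_, fun k A hA t ht1 ht2 => ?_,
    fun A hA => ?_, fun A hA A' hA' hE j hj => ?_⟩
  · exact contDiff_const.mul ((h.smooth k).comp (contDiff_id.const_smul δ⁻¹))
  · have h1 : HasFDerivAt (s k) (fderiv ℝ (s k) (δ⁻¹ • A)) (δ⁻¹ • A) :=
      (((h.smooth k).differentiable (by simp)) _).hasFDerivAt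
    have h2 : HasFDerivAt (fun A : Fin (N + 1) → ℝ => δ⁻¹ • A)
        (δ⁻¹ • ContinuousLinearMap.id ℝ (Fin (N + 1) → ℝ)) A := (hasFDerivAt_id A).const_smul δ⁻¹
    have h3 : HasFDerivAt (fun A : Fin (N + 1) → ℝ => δ * s k (δ⁻¹ • A)) _ A :=
      (h1.comp A h2).const_mul δ
    have h4 := h.flat k hk (δ⁻¹ • A) j (by
      rw [Pi.smul_apply, hA, smul_eq_mul]
      field_simp)
    rw [h3.fderiv]
    simp [h4]
  · refine h.init _ (fun i => mul_nonneg hi.le (hA1 i)) ?_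
    have e : ∑ i, (δ⁻¹ • A) i = δ⁻¹ * ∑ i, A i := by
      rw [mul_sum]
      rfl
    rw [e, inv_mul_le_iff₀ hδ]
    exact hA2
  · have h1 := h.step k _ hA (δ⁻¹ * t) (mul_pos hi ht1) (by
      rw [inv_mul_le_iff₀ hδ, Pi.smul_apply, smul_eq_mul, mul_add, mul_inv_cancel_left₀ hδ.ne']
      exact ht2)
    show δ⁻¹ • update A k (t + δ * s k (δ⁻¹ • update A k 0)) ∈ S (k + 1)
    rw [hu, hu, mul_zero, mul_add, inv_mul_cancel_left₀ hδ.ne']
    exact h1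
  · obtain ⟨h1, h2⟩ := h.fin_pos _ hA
    refine ⟨fun i => (mul_pos_iff_of_pos_left hi).1 (h1 i), ?_⟩
    have e : ∑ i : Fin N, (δ⁻¹ • A) i.succ = δ⁻¹ * ∑ i : Fin N, A i.succ := by
      rw [mul_sum]
      rfl
    rw [e, inv_mul_lt_iff₀ hδ] at h2
    exact h2.trans_le ha
  · refine h.fin_inj _ hA _ hA' (fun i => ?_) j ?_
    · rw [Pi.smul_apply, Pi.smul_apply, hE i]
    · rw [Pi.smul_apply, Pi.smul_apply, smul_eq_mul, smul_eq_mul, ← mul_sub, hj]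
      field_simp

theorem exists_mesh (N : ℕ) {a b b' ρ : ℝ} (C : ℝ) (hb : 0 < b) (hρ : 0 ≤ ρ) (ha : ρ < a)
    (hv : ρ ^ (N + 1) < (N + 1) * b' * a ^ N) :
    ∃ B : ℕ, 0 < B ∧ ρ + C * (b / B) ≤ a - b / B ∧
      (ρ + C * (b / B)) ^ (N + 1) < (N + 1) * b' * (a - b / B) ^ N := by
  have hx : Filter.Tendsto (fun B : ℕ => b / (B : ℝ)) Filter.atTop (nhds 0) :=
    tendsto_const_div_atTop_nhds_zero_nat b
  have t1 : Filter.Tendsto (fun B : ℕ => ρ + C * (b / (B : ℝ))) Filter.atTop (nhds (ρ + C * 0)) :=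
    (hx.const_mul C).const_add ρ
  have t2 : Filter.Tendsto (fun B : ℕ => a - b / (B : ℝ)) Filter.atTop (nhds (a - 0)) :=
    hx.const_sub a
  rw [mul_zero, add_zero] at t1
  rw [sub_zero] at t2
  have e1 := t1.eventually_lt t2 ha
  have e2 := (t1.pow (N + 1)).eventually_lt ((t2.pow N).const_mul (((N : ℝ) + 1) * b')) hv
  obtain ⟨B, h1, h2, h3⟩ := ((Filter.eventually_gt_atTop 0).and (e1.and e2)).exists
  exact ⟨B, h1, h2.le, h3⟩

theorem exists_data (N : ℕ) {a b ρ : ℝ} (hb : 0 < b) (hρ : 0 ≤ ρ) (ha : ρ < a)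
    (hv : ρ ^ (N + 1) < (N + 1) * a ^ N * b) : ∃ ε s S, Data N a b ρ ε s S := by
  have ha0 : 0 < a := hρ.trans_lt ha
  have hM : 0 < ((N : ℝ) + 1) * a ^ N := by positivity
  obtain ⟨b', hb1, hb2⟩ := exists_between ((div_lt_iff₀' hM).2 hv)
  have hb0 : 0 < b' := lt_of_le_of_lt (by positivity) hb1
  rw [div_lt_iff₀' hM] at hb1
  obtain ⟨η, hη⟩ : ∃ η : ℝ, η = min 1 ((b - b') / a) := ⟨_, rfl⟩
  have h0 : 0 < η := by
    rw [hη]
    exact lt_min one_pos (div_pos (sub_pos.2 hb2) ha0)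
  have h1 : η ≤ 1 := hη ▸ min_le_left _ _
  have h2 : η * a ≤ b - b' := (le_div_iff₀ ha0).1 (hη ▸ min_le_right _ _)
  obtain ⟨K, hK⟩ : ∃ K : ℕ, K = (nxt N η)^[N] (N + 1) := ⟨_, rfl⟩
  obtain ⟨B, hB, m1, m2⟩ := exists_mesh N (b' := b') (2 * K + 3 * N + 3) hb hρ ha
    (by linarith [mul_right_comm ((N : ℝ) + 1) (a ^ N) b'])
  have hB' : (0 : ℝ) < B := by exact_mod_cast hB
  obtain ⟨δ, hδ⟩ : ∃ δ : ℝ, δ = b / B := ⟨_, rfl⟩
  rw [← hδ] at m1 m2
  have d0 : 0 < δ := hδ ▸ div_pos hb hB'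
  have d1 : δ * B = b := by
    rw [hδ]
    field_simp
  have k0 : (0 : ℝ) ≤ K := Nat.cast_nonneg _
  have n0 : (0 : ℝ) ≤ N := Nat.cast_nonneg _
  obtain ⟨r, hr⟩ : ∃ r : ℝ, δ * r = ρ := ⟨ρ / δ, by field_simp⟩
  obtain ⟨x, hx⟩ : ∃ x : ℝ, δ * x = a := ⟨a / δ, by field_simp⟩
  obtain ⟨y, hy⟩ : ∃ y : ℝ, δ * y = b' := ⟨b' / δ, by field_simp⟩
  have r0 : 0 ≤ r := (mul_nonneg_iff_of_pos_left d0).1 (hr ▸ hρ)
  have x0 : 0 ≤ x := (mul_nonneg_iff_of_pos_left d0).1 (hx ▸ ha0.le)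
  have y0 : 0 ≤ y := (mul_nonneg_iff_of_pos_left d0).1 (hy ▸ hb0.le)
  have t1 : (⌊x⌋₊ : ℝ) ≤ x := Nat.floor_le x0
  have t2 : x < (⌊x⌋₊ : ℝ) + 1 := Nat.lt_floor_add_one x
  have w1 : r ≤ (⌈r⌉₊ : ℝ) := Nat.le_ceil r
  have w2 : (⌈r⌉₊ : ℝ) < r + 1 := Nat.ceil_lt_add_one r0
  have m3 : r + (2 * K + 3 * N + 3) ≤ x - 1 := by
    refine le_of_mul_le_mul_left ?_ d0
    rw [mul_add, mul_sub, hr, hx]
    linarith
  have m4 : (r + (2 * K + 3 * N + 3)) ^ (N + 1) < (N + 1) * y * (x - 1) ^ N := by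
    refine lt_of_mul_lt_mul_left ?_ (pow_pos d0 (N + 1)).le
    have e1 : δ ^ (N + 1) * (r + (2 * K + 3 * N + 3)) ^ (N + 1) =
        (ρ + (2 * K + 3 * N + 3) * δ) ^ (N + 1) := by
      rw [← mul_pow, ← hr]
      congr 1
      ring
    have e2 : δ ^ (N + 1) * ((N + 1) * y * (x - 1) ^ N) = (N + 1) * b' * (a - δ) ^ N := by
      have e3 : a - δ = δ * (x - 1) := by
        rw [← hx]
        ring
      rw [e3, ← hy, mul_pow]
      ring
    rw [e1, e2]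
    exact m2
  obtain ⟨s, S, hD⟩ := data_unit N ⌊x⌋₊ (⌈r⌉₊ + 2 * K + 2 * N + 1) B (B' := y) h0 h1 r0
    (by rw [← hK]; linarith) (by rw [← hK]; push_cast; linarith)
    (by
      have e1 : (((⌈r⌉₊ + 2 * K + 2 * N + 1 : ℕ) : ℝ) + N) ^ (N + 1) ≤
          (r + (2 * K + 3 * N + 3)) ^ (N + 1) :=
        pow_le_pow_left₀ (by positivity) (by push_cast; linarith) _
      have e2 : (x - 1) ^ N ≤ (⌊x⌋₊ : ℝ) ^ N := pow_le_pow_left₀ (by linarith) (by linarith) _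
      exact e1.trans_lt (m4.trans_le (mul_le_mul_of_nonneg_left e2 (by positivity))))
    (by
      refine le_of_mul_le_mul_left ?_ d0
      have e1 : η * (δ * (⌊x⌋₊ : ℝ)) ≤ η * (δ * x) :=
        mul_le_mul_of_nonneg_left (mul_le_mul_of_nonneg_left t1 d0.le) h0.le
      rw [hx] at e1
      rw [mul_add, hy, d1]
      linarith [mul_left_comm δ η (⌊x⌋₊ : ℝ)])
  obtain ⟨s', S', hD'⟩ := hD.scale (a' := a) d0 (hx ▸ mul_le_mul_of_nonneg_left t1 d0.le)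
  rw [d1, hr] at hD'
  exact ⟨_, s', S', hD'⟩

end Pool.Agent.Lib.BallU
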