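import Mathlib

/-! Definitions for the rearrangement scheme on a discrete simplex. -/

open Finset Function
open scoped ContDiff

namespace Pool.Agent.Lib.BallU

/-- The number of `s < H` with `g s ≤ X`. -/
noncomputable def cnt (H : ℕ) (g : ℕ → ℝ) (X : ℝ) : ℕ :=
  ((range H).filter fun s => g s ≤ X).card

/-- The increasing rearrangement of `g 0, …, g (H - 1)`. -/
noncomputable def rear (H : ℕ) (g : ℕ → ℝ) (t : ℕ) : ℝ :=
  if h : t < H then g (Tuple.sort (fun s : Fin H => g s) ⟨t, h⟩) else 0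

variable {N : ℕ}

/-- The sum of the coordinates. -/
def tot (c : Fin N → ℕ) : ℕ := ∑ i, c i

/-- One step in direction `i`. -/
def up (c : Fin N → ℕ) (i : Fin N) : Fin N → ℕ := update c i (c i + 1)

/-- The number of points of the simplex on the line through `c` in direction `k`. -/
def len (T : ℕ) (c : Fin N → ℕ) (k : Fin N) : ℕ := T - tot (update c k 0)

/-- The values of `O` on the line through `c` in direction `k`. -/
def line (O : (Fin N → ℕ) → ℝ) (c : Fin N → ℕ) (k : Fin N) (t : ℕ) : ℝ := O (update c k t)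

/-- Increasing rearrangement along all lines in direction `k`. -/
noncomputable def RR (T : ℕ) (k : Fin N) (O : (Fin N → ℕ) → ℝ) (c : Fin N → ℕ) : ℝ :=
  rear (len T c k) (line O c k) (c k)

/-- The discrete simplex. -/
def dom (N T : ℕ) : Finset (Fin N → ℕ) :=
  (Fintype.piFinset fun _ => range T).filter fun c => tot c < T

/-- Admissible entry times, with slope at least `η`. -/
structure Adm (T : ℕ) (η : ℝ) (L : (Fin N → ℕ) → ℝ) : Prop where
  lo : ∀ c i, tot c + 1 < T → L c + η ≤ L (up c i)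
  hi : ∀ c i, tot c + 1 < T → L (up c i) ≤ L c + 1
  ord : ∀ c i i', tot c + 1 < T → i ≤ i' → L (up c i') ≤ L (up c i)

/-- The invariant of the exit times after `k` rearrangements. -/
structure Inv (T k : ℕ) (L O : (Fin N → ℕ) → ℝ) : Prop where
  a : ∀ c, tot c < T → L c ≤ O c
  b : ∀ c i i', tot c + 1 < T → i ≤ i' → O (up c i') ≤ O (up c i)
  c1 : ∀ c i i', tot c + 1 < T → O (up c i) ≤ O (up c i') + 1
  c2 : ∀ c i, tot c + 1 < T → O (up c i) ≤ O c + 1
  d1 : ∀ c (i : Fin N), tot c + 1 < T → (i : ℕ) < k → O c ≤ O (up c i)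
  d2 : ∀ c i, tot c + 1 < T → O c ≤ O (up c i) + 1
  e : ∀ c (i : Fin N), tot c + 1 < T → k ≤ (i : ℕ) → O (up c i) ≤ max (O c) (L (up c i))

/-- The exit times after `k` rearrangements. -/
noncomputable def OO (T W : ℕ) (L : (Fin N → ℕ) → ℝ) : ℕ → (Fin N → ℕ) → ℝ
  | 0 => fun c => L c + ((W - tot c : ℕ) : ℝ)
  | k + 1 => if h : k < N then RR T ⟨k, h⟩ (OO T W L k) else OO T W L k

/-- The cell of a point; coordinate `0` is the time. -/
noncomputable def fl (A : Fin (N + 1) → ℝ) (i : Fin N) : ℕ := ⌊A i.succ⌋₊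

/-- Points that lie well inside the region between entry and exit times. -/
structure Q (T K : ℕ) (L O : (Fin N → ℕ) → ℝ) (k : ℕ) (A : Fin (N + 1) → ℝ) : Prop where
  nn : ∀ i : Fin N, 0 ≤ A i.succ
  pos : ∀ i : Fin N, (i : ℕ) < k → 0 < A i.succ
  mar : tot (fl A) + K ≤ T
  lo : L (fl A) + K ≤ A 0
  hi : A 0 + K ≤ O (fl A)

/-- The margin needed before a step that ends with margin `K`. -/
noncomputable def nxt (N : ℕ) (η : ℝ) (K : ℕ) : ℕ :=
  K + N + 3 + ⌈(N : ℝ) + 3 + K + (2 * K + 2 + N) / η⌉₊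

/-- The data that drive the chain of shears. -/
structure Data (N : ℕ) (a b ρ ε : ℝ) (s : ℕ → (Fin (N + 1) → ℝ) → ℝ)
    (S : ℕ → Set (Fin (N + 1) → ℝ)) : Prop where
  eps : 0 < ε
  smooth : ∀ k, ContDiff ℝ ∞ (s k)
  flat : ∀ k, 1 ≤ k → ∀ (A : Fin (N + 1) → ℝ) (j : ℤ), A 0 = j * b →
    fderiv ℝ (s k) A (Pi.single 0 1) = 0
  init : ∀ A : Fin (N + 1) → ℝ, (∀ i, 0 ≤ A i) → ∑ i, A i ≤ ρ → A ∈ S 0
  step : ∀ (k : Fin (N + 1)), ∀ A ∈ S k, ∀ t, 0 < t → t ≤ A k + ε →
    update A k (t + s k (update A k 0)) ∈ S (k + 1)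
  fin_pos : ∀ A ∈ S (N + 1), (∀ i : Fin N, 0 < A i.succ) ∧ ∑ i : Fin N, A i.succ < a
  fin_inj : ∀ A ∈ S (N + 1), ∀ A' ∈ S (N + 1), (∀ i : Fin N, A i.succ = A' i.succ) →
    ∀ j : ℤ, A' 0 - A 0 = j * b → j = 0

theorem mem_dom {T : ℕ} {c : Fin N → ℕ} : c ∈ dom N T ↔ tot c < T := by
  simp only [dom, mem_filter, Fintype.mem_piFinset, mem_range, and_iff_right_iff_imp]
  exact fun h i => (single_le_sum (f := c) (fun _ _ => Nat.zero_le _) (mem_univ i)).trans_lt h

theorem tot_update (c : Fin N → ℕ) (k : Fin N) (t : ℕ) :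
    tot (update c k t) = tot (update c k 0) + t := by
  unfold tot
  rw [sum_update_of_mem (mem_univ k), sum_update_of_mem (mem_univ k)]
  omega

theorem tot_eq (c : Fin N → ℕ) (k : Fin N) : tot c = tot (update c k 0) + c k := by
  rw [← tot_update, update_eq_self]

theorem tot_up (c : Fin N → ℕ) (i : Fin N) : tot (up c i) = tot c + 1 := by
  rw [up, tot_update, tot_eq c i]
  omega

theorem up_update_same (c : Fin N → ℕ) (k : Fin N) (t : ℕ) :
    up (update c k t) k = update c k (t + 1) := by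
  simp [up]

theorem up_update_ne (c : Fin N → ℕ) {i k : Fin N} (h : i ≠ k) (t : ℕ) :
    up (update c k t) i = update (up c i) k t := by
  unfold up
  rw [update_of_ne h, update_comm h]

theorem up_ne (c : Fin N → ℕ) {i k : Fin N} (h : i ≠ k) : up c i k = c k := by
  unfold up
  rw [update_of_ne h.symm]

theorem lt_len {T : ℕ} {c : Fin N → ℕ} {k : Fin N} {t : ℕ} :
    t < len T c k ↔ tot (update c k t) < T := by
  rw [tot_update, len]
  omega

theorem len_up_ne (T : ℕ) (c : Fin N → ℕ) {i k : Fin N} (h : i ≠ k) :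
    len T (up c i) k = len T c k - 1 := by
  unfold len
  rw [← up_update_ne c h, tot_up]
  omega

theorem len_update (T : ℕ) (c : Fin N → ℕ) (k : Fin N) (t : ℕ) :
    len T (update c k t) k = len T c k := by
  simp [len]

theorem line_update (O : (Fin N → ℕ) → ℝ) (c : Fin N → ℕ) (k : Fin N) (t : ℕ) :
    line O (update c k t) k = line O c k := by
  funext s
  simp [line]

theorem RR_update (T : ℕ) (k : Fin N) (O : (Fin N → ℕ) → ℝ) (c : Fin N → ℕ) (t : ℕ) :
    RR T k O (update c k t) = rear (len T c k) (line O c k) t := by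
  rw [RR, len_update, line_update, update_self]

theorem Adm.zero {T : ℕ} {η : ℝ} {L : (Fin N → ℕ) → ℝ} (h : Adm T η L) (hη : 0 ≤ η) :
    Adm T 0 L :=
  ⟨fun c i hc => by linarith [h.lo c i hc], h.hi, h.ord⟩

end Pool.Agent.Lib.BallU
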