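import Pool.Agent.Lib.MP_d7b9cc_gt.U.Shear

/-! The chain of shears. -/

open Finset Function
open scoped ContDiff

namespace Pool.Agent.Lib.BallU

open Pool.Agent.Lib.BallT6

section
variable {N : ℕ}

/-- One step: the planar map in coordinate `k`, then the shear. -/
noncomputable def stp (f : ℂ → ℂ) (k : Fin (N + 1)) (s : (Fin (N + 1) → ℝ) → ℝ) (z : ℕ → ℂ) :
    ℕ → ℂ := sh k s (hd f k z)

/-- The first `k` steps. -/
noncomputable def chain (N : ℕ) (f : ℂ → ℂ) (s : ℕ → (Fin (N + 1) → ℝ) → ℝ) :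
    ℕ → (ℕ → ℂ) → ℕ → ℂ
  | 0 => id
  | k + 1 => if h : k < N + 1 then stp f ⟨k, h⟩ (s k) ∘ chain N f s k else chain N f s k

/-- Equal real parts and imaginary parts equal up to integers below `k`, equal from `k` on. -/
def Rel (N k : ℕ) (z z' : ℕ → ℂ) : Prop :=
  (∀ i < k, (z i).re = (z' i).re ∧ ∃ m : ℤ, (z' i).im - (z i).im = m) ∧
    ∀ i, k ≤ i → i < N + 1 → z i = z' i

variable {f : ℂ → ℂ} {k : Fin (N + 1)} {s : (Fin (N + 1) → ℝ) → ℝ} {z z' : ℕ → ℂ}

theorem hd_ne {k l : ℕ} (h : l ≠ k) : hd f k z l = z l := update_of_ne h _ _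

theorem hd_self (k : ℕ) : hd f k z k = f (z k) := update_self _ _ _

theorem act_hd : update (act N k (hd f k z)) k 0 = update (act N k z) k 0 := by
  funext i
  by_cases h : i = k
  · subst h
    simp
  · have h' : (i : ℕ) ≠ k := fun e => h (Fin.ext e)
    rw [update_of_ne h, update_of_ne h]
    unfold act
    rw [hd_ne h']

theorem stp_lt {l : ℕ} (h : l < k) :
    stp f k s z l = z l - (ang k s (hd f k z) l : ℂ) * Complex.I := by
  unfold stp sh
  rw [if_pos h, hd_ne h.ne]

theorem stp_self : stp f k s z k = f (z k) + (s (update (act N k z) k 0) : ℂ) := by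
  unfold stp sh
  rw [if_neg (lt_irrefl _), if_pos rfl, hd_self, act_hd]

theorem stp_gt {l : ℕ} (h : (k : ℕ) < l) :
    stp f k s z l = ph (2 * Real.pi * (-1 * ang k s (hd f k z) l)) * z l := by
  unfold stp sh
  rw [if_neg (not_lt.mpr h.le), if_neg h.ne', hd_ne h.ne']

theorem stp_lt_re {l : ℕ} (h : l < k) : (stp f k s z l).re = (z l).re := by
  rw [stp_lt h]
  simp

theorem stp_lt_im {l : ℕ} (h : l < k) :
    (stp f k s z l).im = (z l).im - ang k s (hd f k z) l := by
  rw [stp_lt h]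
  simp

theorem stp_self_re : (stp f k s z k).re = (f (z k)).re + s (update (act N k z) k 0) := by
  rw [stp_self]
  simp

theorem stp_self_im : (stp f k s z k).im = (f (z k)).im := by
  rw [stp_self]
  simp

theorem act_stp : act N (k + 1) (stp f k s z) =
    update (act N k z) k ((f (z k)).re + s (update (act N k z) k 0)) := by
  funext i
  rcases lt_trichotomy (i : ℕ) k with h | h | h
  · have h' : i ≠ k := fun e => by rw [e] at h; exact lt_irrefl _ h
    rw [update_of_ne h']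
    unfold act
    rw [if_pos (by omega), if_pos h, stp_lt_re h]
  · have h' : i = k := Fin.ext h
    subst h'
    rw [update_self, ← stp_self_re]
    unfold act
    rw [if_pos (by omega)]
  · have h' : i ≠ k := fun e => by rw [e] at h; exact lt_irrefl _ h
    rw [update_of_ne h']
    unfold act
    rw [if_neg (by omega), if_neg (by omega), stp_gt h, mu_ph_mul]

theorem ang_hd (l : ℕ) : ang k s (hd f k z) l =
    if h : l < N + 1 then
      (f (z k)).im * fderiv ℝ s (update (act N k z) k 0) (Pi.single ⟨l, h⟩ 1) else 0 := by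
  unfold ang
  rw [act_hd, hd_self]

theorem Rel.act_eq {k : ℕ} (h : Rel N k z z') : act N k z = act N k z' := by
  funext i
  unfold act
  split_ifs with hi
  · exact (h.1 i hi).1
  · rw [h.2 i (not_lt.mp hi) i.2]

theorem Rel.back (hf : Planar f) (hi : ∀ w, -(1 / 2) < (f w).im ∧ (f w).im < 1 / 2)
    (h : Rel N (k + 1) (stp f k s z) (stp f k s z')) : Rel N k z z' := by
  have hA := h.act_eq
  rw [act_stp, act_stp] at hA
  have hU : update (act N k z) k 0 = update (act N k z') k 0 := by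
    have := congrArg (fun A => update A k (0 : ℝ)) hA
    simpa only [update_idem] using this
  obtain ⟨hre, m, hm⟩ := h.1 k (Nat.lt_succ_self _)
  rw [stp_self_re, stp_self_re, hU] at hre
  rw [stp_self_im, stp_self_im] at hm
  have hm0 : m = 0 := by
    have a1 := hi (z k)
    have a2 := hi (z' k)
    have b1 : (m : ℝ) < 1 := by linarith [a1.1, a2.2]
    have b2 : (-1 : ℝ) < m := by linarith [a1.2, a2.1]
    have c1 : m < 1 := by exact_mod_cast b1
    have c2 : -1 < m := by exact_mod_cast b2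
    omega
  rw [hm0] at hm
  have hfz : f (z k) = f (z' k) := Complex.ext (by linarith) (by
    have : ((0 : ℤ) : ℝ) = 0 := Int.cast_zero
    linarith)
  have hk : z k = z' k := hf.inj hfz
  have ha : ∀ l, ang k s (hd f k z) l = ang k s (hd f k z') l := fun l => by
    rw [ang_hd, ang_hd, hU, hk]
  refine ⟨fun i hik => ?_, fun i hki hiN => ?_⟩
  · obtain ⟨e1, n, e2⟩ := h.1 i (by omega)
    rw [stp_lt_re hik, stp_lt_re hik] at e1
    rw [stp_lt_im hik, stp_lt_im hik, ha] at e2
    exact ⟨e1, n, by linarith⟩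
  · rcases hki.eq_or_lt with e | e
    · rw [← e]
      exact hk
    · have e1 := h.2 i (by omega) hiN
      rw [stp_gt e, stp_gt e, ha] at e1
      exact mul_left_cancel₀ (ph_ne_zero _) e1

theorem ph_int {s t : ℝ} (h : ph (2 * Real.pi * s) = ph (2 * Real.pi * t)) :
    ∃ m : ℤ, t - s = m := by
  have hπ := Real.pi_pos
  have e : ph (2 * Real.pi * (t - s)) = 1 := by
    have : ph (2 * Real.pi * (t - s)) * ph (2 * Real.pi * s) = 1 * ph (2 * Real.pi * s) := by
      rw [← ph_add, one_mul, h, show 2 * Real.pi * (t - s) + 2 * Real.pi * s = 2 * Real.pi * t by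
        ring]
    exact mul_right_cancel₀ (ph_ne_zero _) this
  have e1 := ph_re (2 * Real.pi * (t - s))
  rw [e, Complex.one_re] at e1
  obtain ⟨m, hm⟩ := (Real.cos_eq_one_iff _).mp e1.symm
  refine ⟨m, ?_⟩
  have h2 : (2 * Real.pi) * (t - s) = (2 * Real.pi) * m := by linarith
  exact mul_left_cancel₀ (by positivity) h2

theorem pol_rel {ξ ξ' : ℂ} (h0 : 0 < ξ.re) (h0' : 0 < ξ'.re) (h : pol ξ = pol ξ') :
    ξ.re = ξ'.re ∧ ∃ m : ℤ, ξ'.im - ξ.im = m := by
  have hre : ξ.re = ξ'.re := by rw [← mu_pol h0.le, ← mu_pol h0'.le, h]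
  refine ⟨hre, ph_int ?_⟩
  unfold pol at h
  rw [hre] at h
  refine mul_right_cancel₀ ?_ h
  have : 0 < Real.sqrt (ξ'.re / Real.pi) := Real.sqrt_pos.mpr (div_pos h0' Real.pi_pos)
  exact_mod_cast this.ne'

end

section
variable {N : ℕ} {f : ℂ → ℂ} {a b ρ ε : ℝ} {s : ℕ → (Fin (N + 1) → ℝ) → ℝ}
  {S : ℕ → Set (Fin (N + 1) → ℝ)}

theorem chain_succ {k : ℕ} (h : k < N + 1) (z : ℕ → ℂ) :
    chain N f s (k + 1) z = stp f ⟨k, h⟩ (s k) (chain N f s k z) := by
  rw [chain, dif_pos h]
  rfl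

theorem good_chain (E : Type) [NormedAddCommGroup E] [NormedSpace ℝ E] (hf : Planar f)
    (hs : ∀ k, ContDiff ℝ ∞ (s k)) (k : ℕ) (z : ℕ → ℂ) : Good E (N + 1) (chain N f s k) z := by
  induction k with
  | zero => exact fun Z p _ h => ⟨h, fun _ _ => rfl⟩
  | succ k ih =>
    rw [chain]
    split_ifs with h
    · exact Good.comp (Φ := sh ⟨k, h⟩ (s k) ∘ hd f k)
        (Good.comp (good_sh ⟨k, h⟩ (hs k) _) (good_hd hf _ _ _)) ih
    · exact ih

theorem chain_mem (h : Data N a b ρ ε s S) (h1 : ∀ w, 0 < (f w).re)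
    (h2 : ∀ w, mu w ≤ ρ → (f w).re ≤ mu w + ε) {z : ℕ → ℂ}
    (hz : ∑ l ∈ range (N + 1), mu (z l) ≤ ρ) : ∀ k ≤ N + 1,
    act N k (chain N f s k z) ∈ S k ∧ ∀ i, k ≤ i → mu (chain N f s k z i) = mu (z i) := by
  intro k
  induction k with
  | zero =>
    refine fun _ => ⟨h.init _ (fun i => ?_) ?_, fun _ _ => rfl⟩
    · unfold act
      rw [if_neg (Nat.not_lt_zero _)]
      exact mu_nonneg _
    · have e : ∀ i : Fin (N + 1), act N 0 (chain N f s 0 z) i = mu (z i) := fun i => by
        unfold act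
        rw [if_neg (Nat.not_lt_zero _)]
        rfl
      rw [sum_congr rfl fun i _ => e i, Fin.sum_univ_eq_sum_range (fun l => mu (z l))]
      exact hz
  | succ k ih =>
    intro hk
    have hk' : k < N + 1 := hk
    obtain ⟨i1, i2⟩ := ih hk'.le
    rw [chain_succ hk']
    constructor
    · have e := act_stp (f := f) (k := ⟨k, hk'⟩) (s := s k) (z := chain N f s k z)
      have hm : mu (chain N f s k z k) ≤ ρ := by
        rw [i2 k le_rfl]
        exact (single_le_sum (f := fun l => mu (z l)) (fun _ _ => mu_nonneg _)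
          (mem_range.mpr hk')).trans hz
      have hA : act N k (chain N f s k z) ⟨k, hk'⟩ = mu (chain N f s k z k) := by
        unfold act
        rw [if_neg (lt_irrefl _)]
      have := h.step ⟨k, hk'⟩ _ i1 _ (h1 (chain N f s k z k)) (by rw [hA]; exact h2 _ hm)
      exact e ▸ this
    · intro i hi
      rw [stp_gt (k := ⟨k, hk'⟩) hi, mu_ph_mul]
      exact i2 i (by omega)

theorem chain_punct (h : Data N a b ρ ε s S) (hi : ∀ w, -(1 / 2) < (f w).im ∧ (f w).im < 1 / 2)
    (z : ℕ → ℂ) (j : ℤ) : ∀ k < N + 1, (chain N f s (k + 1) z 0).re = j * b →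
    -(1 / 2) < (chain N f s (k + 1) z 0).im ∧ (chain N f s (k + 1) z 0).im < 1 / 2 := by
  intro k
  induction k with
  | zero =>
    intro hk _
    have e := stp_self_im (f := f) (k := ⟨0, hk⟩) (s := s 0) (z := chain N f s 0 z)
    rw [chain_succ hk]
    rw [show (stp f ⟨0, hk⟩ (s 0) (chain N f s 0 z) 0).im = _ from e]
    exact hi _
  | succ k ih =>
    intro hk hre
    have h0 : 0 < ((⟨k + 1, hk⟩ : Fin (N + 1)) : ℕ) := Nat.succ_pos k
    rw [chain_succ hk] at hre ⊢
    rw [stp_lt_re h0] at hre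
    have hne : (0 : Fin (N + 1)) ≠ ⟨k + 1, hk⟩ := fun e => by
      have := congrArg Fin.val e
      simp at this
    have hfl := h.flat (k + 1) (by omega)
      (update (act N (k + 1) (chain N f s (k + 1) z)) ⟨k + 1, hk⟩ 0) j (by
        rw [update_of_ne hne]
        unfold act
        rw [if_pos (by simp)]
        exact hre)
    have ha : ang ⟨k + 1, hk⟩ (s (k + 1)) (hd f (k + 1) (chain N f s (k + 1) z)) 0 = 0 := by
      have := ang_hd (f := f) (k := ⟨k + 1, hk⟩) (s := s (k + 1)) (z := chain N f s (k + 1) z) 0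
      rw [dif_pos (Nat.succ_pos N)] at this
      exact this.trans (mul_eq_zero_of_right _ hfl)
    rw [stp_lt_im h0]
    rw [show ang ⟨k + 1, hk⟩ (s (k + 1))
      (hd f ((⟨k + 1, hk⟩ : Fin (N + 1)) : ℕ) (chain N f s (k + 1) z)) 0 = 0 from ha, sub_zero]
    exact ih (by omega) hre

theorem chain_back (hf : Planar f) (hi : ∀ w, -(1 / 2) < (f w).im ∧ (f w).im < 1 / 2)
    {z z' : ℕ → ℂ} : ∀ k ≤ N + 1, Rel N k (chain N f s k z) (chain N f s k z') → Rel N 0 z z' := by
  intro k
  induction k with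
  | zero => exact fun _ h => h
  | succ k ih =>
    intro hk h
    have hk' : k < N + 1 := hk
    rw [chain_succ hk', chain_succ hk'] at h
    exact ih hk'.le (Rel.back (k := ⟨k, hk'⟩) hf hi h)

theorem act_last (w : ℕ → ℂ) (i : Fin (N + 1)) : act N (N + 1) w i = (w i).re := by
  unfold act
  rw [if_pos i.2]

end

theorem geo (E : Type) [NormedAddCommGroup E] [NormedSpace ℝ E] {N : ℕ} {a b ρ ε : ℝ}
    {s : ℕ → (Fin (N + 1) → ℝ) → ℝ} {S : ℕ → Set (Fin (N + 1) → ℝ)} (h : Data N a b ρ ε s S) :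
    ∃ Ψ : (ℕ → ℂ) → ℕ → ℂ,
      (∀ z, ∑ l ∈ range (N + 1), mu (z l) ≤ ρ → Good E (N + 1) Ψ z ∧
        ∑ i ∈ range N, mu (Ψ z (i + 1)) < a ∧
        ∀ k l : ℤ, Ψ z 0 ≠ (k : ℂ) * (b : ℂ) + (l : ℂ) * Complex.I) ∧
      ∀ z z', ∑ l ∈ range (N + 1), mu (z l) ≤ ρ → ∑ l ∈ range (N + 1), mu (z' l) ≤ ρ →
        (∀ i < N, Ψ z (i + 1) = Ψ z' (i + 1)) → ∀ k l : ℤ,
          Ψ z' 0 - Ψ z 0 = (k : ℂ) * (b : ℂ) + (l : ℂ) * Complex.I → ∀ j < N + 1, z j = z' j := by
  obtain ⟨f, hf, h1, h2⟩ := exists_oneSided ρ h.eps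
  have hi : ∀ w, -(1 / 2) < (f w).im ∧ (f w).im < 1 / 2 := fun w => (h1 w).2
  have hS : ∀ z : ℕ → ℂ, ∑ l ∈ range (N + 1), mu (z l) ≤ ρ →
      act N (N + 1) (chain N f s (N + 1) z) ∈ S (N + 1) := fun z hz =>
    (chain_mem h (fun w => (h1 w).1) h2 hz (N + 1) le_rfl).1
  have hp : ∀ z : ℕ → ℂ, ∑ l ∈ range (N + 1), mu (z l) ≤ ρ →
      ∀ i < N, 0 < (chain N f s (N + 1) z (i + 1)).re := fun z hz i hiN => by
    have := (h.fin_pos _ (hS z hz)).1 ⟨i, hiN⟩
    rwa [act_last] at this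
  have e0 : ∀ w : ℕ → ℂ, fin w 0 = w 0 + Complex.I / 2 := fun _ => rfl
  have e1 : ∀ (w : ℕ → ℂ) (i : ℕ), fin w (i + 1) = pol (w (i + 1)) := fun _ _ => rfl
  refine ⟨fin ∘ chain N f s (N + 1), fun z hz => ⟨?_, ?_, fun k l hkl => ?_⟩,
    fun z z' hz hz' hE k l hkl => ?_⟩
  · exact Good.comp (good_fin (hp z hz)) (good_chain E hf h.smooth _ z)
  · have := (h.fin_pos _ (hS z hz)).2
    rw [sum_congr rfl fun (i : Fin N) _ => act_last (chain N f s (N + 1) z) i.succ] at this
    simp only [Fin.val_succ] at this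
    rw [Fin.sum_univ_eq_sum_range (fun i => (chain N f s (N + 1) z (i + 1)).re)] at this
    refine lt_of_eq_of_lt (sum_congr rfl fun i hiN => ?_) this
    rw [comp_apply, e1, mu_pol (hp z hz i (mem_range.mp hiN)).le]
  · rw [comp_apply, e0] at hkl
    have r := congrArg Complex.re hkl
    have m := congrArg Complex.im hkl
    simp at r m
    obtain ⟨p1, p2⟩ := chain_punct h hi z k N (Nat.lt_succ_self N) r
    have b1 : (l : ℝ) < 1 := by linarith
    have b2 : (0 : ℝ) < l := by linarith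
    have c1 : l < 1 := by exact_mod_cast b1
    have c2 : 0 < l := by exact_mod_cast b2
    omega
  · have hR : ∀ i < N, (chain N f s (N + 1) z (i + 1)).re = (chain N f s (N + 1) z' (i + 1)).re ∧
        ∃ m : ℤ, (chain N f s (N + 1) z' (i + 1)).im - (chain N f s (N + 1) z (i + 1)).im = m :=
      fun i hiN => pol_rel (hp z hz i hiN) (hp z' hz' i hiN) (hE i hiN)
    rw [comp_apply, comp_apply, e0, e0, add_sub_add_right_eq_sub] at hkl
    have r := congrArg Complex.re hkl
    have m := congrArg Complex.im hkl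
    simp at r m
    have hk : k = 0 := h.fin_inj _ (hS z hz) _ (hS z' hz')
      (fun i => by rw [act_last, act_last]; exact (hR i i.2).1) k
      (by rw [act_last, act_last]; exact r)
    rw [hk] at r
    have hrel : Rel N (N + 1) (chain N f s (N + 1) z) (chain N f s (N + 1) z') := by
      refine ⟨fun i hiN => ?_, fun i h1 h2 => absurd h2 (not_lt.mpr h1)⟩
      cases i with
      | zero => exact ⟨by simp at r; linarith, l, m⟩
      | succ i => exact hR i (by omega)
    exact fun j hj => (chain_back hf hi (N + 1) le_rfl hrel).2 j (Nat.zero_le _) hj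

end Pool.Agent.Lib.BallU
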