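import Pool.Agent.Lib.MP_d7b9cc_gt.G2

/-! The new statement implies the two earlier ones. -/

open scoped ContDiff

namespace Pool.Agent.Lib.BallU

/-- The standard symplectic form on `ℂⁿ`. -/
def sf {n : ℕ} (a b : Fin n → ℂ) : ℝ := ∑ j, ((a j).re * (b j).im - (a j).im * (b j).re)

/-- The standard symplectic form on `ℂ × ℂ`. -/
def sf2 (v w : ℂ × ℂ) : ℝ :=
  (v.1.re * w.1.im - v.1.im * w.1.re) + (v.2.re * w.2.im - v.2.im * w.2.re)

/-- The new statement. -/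
def Sharp : Prop := ∀ (N : ℕ) (a b r : ℝ), 0 < b → Real.pi * r ^ 2 < a →
    (Real.pi * r ^ 2) ^ (N + 1) < (N + 1) * a ^ N * b →
    ∃ (U : Set (Fin (N + 1) → ℂ)) (ψ : (Fin (N + 1) → ℂ) → Fin (N + 1) → ℂ), IsOpen U ∧
      (∀ z : Fin (N + 1) → ℂ, ∑ j, ‖z j‖ ^ 2 ≤ r ^ 2 → z ∈ U) ∧
      ContDiffOn ℝ ∞ ψ U ∧
      (∀ z ∈ U, ∀ v w, sf (fderiv ℝ ψ z v) (fderiv ℝ ψ z w) = sf v w) ∧
      (∀ z ∈ U, Real.pi * ∑ j : Fin N, ‖ψ z j.succ‖ ^ 2 < a) ∧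
      (∀ z ∈ U, ∀ k l : ℤ, ψ z 0 ≠ (k : ℂ) * (b : ℂ) + (l : ℂ) * Complex.I) ∧
      ∀ z ∈ U, ∀ z' ∈ U, (∀ j : Fin N, ψ z j.succ = ψ z' j.succ) →
        (∃ k l : ℤ, ψ z' 0 - ψ z 0 = (k : ℂ) * (b : ℂ) + (l : ℂ) * Complex.I) → z = z'

/-- The linear area preserving map `(x, y) ↦ (x / s, s y)`. -/
noncomputable def strch (s : ℝ) : ℂ →L[ℝ] ℂ :=
  Complex.reCLM.smulRight ((s⁻¹ : ℝ) : ℂ) + Complex.imCLM.smulRight ((s : ℂ) * Complex.I)

theorem strch_re (s : ℝ) (z : ℂ) : (strch s z).re = z.re * s⁻¹ := by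
  simp [strch]

theorem strch_im (s : ℝ) (z : ℂ) : (strch s z).im = z.im * s := by
  simp [strch]

/-- The map `strch s` applied to coordinate `0`. -/
noncomputable def headL (N : ℕ) (s : ℝ) : (Fin (N + 1) → ℂ) →L[ℝ] (Fin (N + 1) → ℂ) :=
  ContinuousLinearMap.pi fun j =>
    Fin.cases (motive := fun _ => (Fin (N + 1) → ℂ) →L[ℝ] ℂ)
      ((strch s).comp (ContinuousLinearMap.proj 0)) (fun i => ContinuousLinearMap.proj i.succ) j

theorem headL_zero (N : ℕ) (s : ℝ) (x : Fin (N + 1) → ℂ) : headL N s x 0 = strch s (x 0) := by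
  simp [headL]

theorem headL_succ (N : ℕ) (s : ℝ) (x : Fin (N + 1) → ℂ) (i : Fin N) :
    headL N s x i.succ = x i.succ := by
  simp [headL]

theorem sf_headL (N : ℕ) {s : ℝ} (hs : s ≠ 0) (x y : Fin (N + 1) → ℂ) :
    sf (headL N s x) (headL N s y) = sf x y := by
  unfold sf
  rw [Fin.sum_univ_succ, Fin.sum_univ_succ]
  simp only [headL_zero, headL_succ, strch_re, strch_im]
  congr 1
  field_simp

/-- The identification of `ℂ × ℂ` with `ℂ²`. -/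
noncomputable def pairL : (ℂ × ℂ) →L[ℝ] (Fin (1 + 1) → ℂ) :=
  ContinuousLinearMap.pi fun j =>
    Fin.cases (motive := fun _ => (ℂ × ℂ) →L[ℝ] ℂ)
      (ContinuousLinearMap.fst ℝ ℂ ℂ) (fun _ => ContinuousLinearMap.snd ℝ ℂ ℂ) j

theorem pairL_zero (x : ℂ × ℂ) : pairL x 0 = x.1 := by
  simp [pairL]

theorem pairL_succ (x : ℂ × ℂ) (i : Fin 1) : pairL x i.succ = x.2 := by
  simp only [pairL, ContinuousLinearMap.pi_apply, Fin.cases_succ, ContinuousLinearMap.coe_snd']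

theorem sf_two (x y : Fin (1 + 1) → ℂ) :
    sf x y = BallT6.om (x (0 : Fin 1).succ) (y (0 : Fin 1).succ) + BallT6.om (x 0) (y 0) := by
  unfold sf BallT6.om
  rw [Fin.sum_univ_succ, Fin.sum_univ_one]
  ring

theorem impl_all (h : Sharp) (N : ℕ) (r s : ℝ) (hr : Real.pi * r ^ 2 < N + 1) (hs : 1 ≤ s) :
    ∃ (U : Set (Fin (N + 1) → ℂ)) (ψ : (Fin (N + 1) → ℂ) → Fin (N + 1) → ℂ), IsOpen U ∧
      (∀ z : Fin (N + 1) → ℂ, ∑ j, ‖z j‖ ^ 2 ≤ r ^ 2 → z ∈ U) ∧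
      ContDiffOn ℝ ∞ ψ U ∧
      (∀ z ∈ U, ∀ v w, sf (fderiv ℝ ψ z v) (fderiv ℝ ψ z w) = sf v w) ∧
      (∀ z ∈ U, Real.pi * ∑ j : Fin N, ‖ψ z j.succ‖ ^ 2 < N + 1) ∧
      ∀ z ∈ U, ∀ z' ∈ U, (∀ j : Fin N, ψ z j.succ = ψ z' j.succ) →
        (∃ k l : ℤ, ψ z' 0 - ψ z 0 = (k : ℂ) + (l : ℂ) * (s : ℂ) * Complex.I) → z = z' := by
  have hs0 : 0 < s := by linarith
  have hπ : 0 ≤ Real.pi * r ^ 2 := by positivity
  have hv : (Real.pi * r ^ 2) ^ (N + 1) < (N + 1) * ((N : ℝ) + 1) ^ N * s := by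
    have h1 : (Real.pi * r ^ 2) ^ (N + 1) < ((N : ℝ) + 1) ^ (N + 1) :=
      pow_lt_pow_left₀ hr hπ (by omega)
    have h2 : (0 : ℝ) < ((N : ℝ) + 1) ^ (N + 1) := by positivity
    have h3 : ((N : ℝ) + 1) * ((N : ℝ) + 1) ^ N * s = ((N : ℝ) + 1) ^ (N + 1) * s := by ring
    rw [h3]
    nlinarith
  obtain ⟨U, ψ, hU, hB, hsm, hsy, hb, -, hinj⟩ := h N (N + 1) s r hs0 hr hv
  refine ⟨U, fun z => headL N s (ψ z), hU, hB, (headL N s).contDiff.comp_contDiffOn hsm,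
    fun z hz v w => ?_, fun z hz => ?_, fun z hz z' hz' h1 h2 => ?_⟩
  · have hd : DifferentiableAt ℝ ψ z :=
      (hsm.contDiffAt (hU.mem_nhds hz)).differentiableAt (by simp)
    have e : HasFDerivAt (fun z => headL N s (ψ z)) ((headL N s).comp (fderiv ℝ ψ z)) z :=
      (headL N s).hasFDerivAt.comp z hd.hasFDerivAt
    rw [e.fderiv]
    simp only [ContinuousLinearMap.coe_comp, Function.comp_apply]
    rw [sf_headL N hs0.ne', hsy z hz]
  · simp only [headL_succ]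
    exact hb z hz
  · simp only [headL_succ, headL_zero] at h1 h2
    obtain ⟨k, l, e⟩ := h2
    refine hinj z hz z' hz' h1 ⟨k, l, ?_⟩
    have e1 := congrArg Complex.re e
    have e2 := congrArg Complex.im e
    simp only [Complex.sub_re, Complex.sub_im, strch_re, strch_im] at e1 e2
    simp at e1 e2
    apply Complex.ext
    · simp
      field_simp at e1
      linarith
    · simp
      apply mul_right_cancel₀ hs0.ne'
      linarith

theorem impl_disc (h : Sharp) (a b r : ℝ) (hb : 0 < b) (ha : Real.pi * r ^ 2 < a)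
    (hv : (Real.pi * r ^ 2) ^ 2 / 2 < a * b) :
    ∃ (U : Set (ℂ × ℂ)) (ψ : ℂ × ℂ → ℂ × ℂ), IsOpen U ∧
      (∀ z : ℂ × ℂ, ‖z.1‖ ^ 2 + ‖z.2‖ ^ 2 ≤ r ^ 2 → z ∈ U) ∧
      ContDiffOn ℝ ∞ ψ U ∧
      (∀ z ∈ U, ∀ v w, sf2 (fderiv ℝ ψ z v) (fderiv ℝ ψ z w) = sf2 v w) ∧
      (∀ z ∈ U, (ψ z).1.re ∈ Set.Ioo 0 a ∧ (ψ z).1.im ∈ Set.Ioo (0 : ℝ) 1) ∧
      (∀ z ∈ U, ∀ k l : ℤ, (ψ z).2 ≠ (k : ℂ) * (b : ℂ) + (l : ℂ) * Complex.I) ∧
      ∀ z ∈ U, ∀ z' ∈ U, (ψ z).1 = (ψ z').1 →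
        (∃ k l : ℤ, (ψ z').2 - (ψ z).2 = (k : ℂ) * (b : ℂ) + (l : ℂ) * Complex.I) → z = z' := by
  have hc : (Real.pi * r ^ 2) ^ 2 / (2 * b) < a := by
    rw [div_lt_iff₀ (by positivity)]
    linarith
  obtain ⟨a2, h1, h2⟩ := exists_between (max_lt ha hc)
  have h3 : Real.pi * r ^ 2 < a2 := (le_max_left _ _).trans_lt h1
  have h4 : (Real.pi * r ^ 2) ^ 2 / (2 * b) < a2 := (le_max_right _ _).trans_lt h1
  rw [div_lt_iff₀ (by positivity)] at h4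
  obtain ⟨U, ψ, hU, hB, hsm, hsy, hbd, hne, hinj⟩ := h 1 a2 b r hb h3 (by
    push_cast
    nlinarith)
  obtain ⟨f, hf, hf1, hf2⟩ := BallT6.exists_oneSided a2 (ε := a - a2) (by linarith)
  have hsm' : ContDiffOn ℝ ∞ (fun z => ψ (pairL z)) (pairL ⁻¹' U) :=
    hsm.comp pairL.contDiff.contDiffOn fun z hz => hz
  refine ⟨pairL ⁻¹' U, fun z => (f (ψ (pairL z) (0 : Fin 1).succ) + Complex.I / 2, ψ (pairL z) 0),
    hU.preimage pairL.continuous, fun z hz => hB _ ?_, ?_, fun z hz v w => ?_, fun z hz => ?_,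
    fun z hz => hne _ hz, fun z hz z' hz' e1 e2 => ?_⟩
  · rw [Fin.sum_univ_succ, Fin.sum_univ_one, pairL_zero, pairL_succ]
    exact hz
  · exact ((hf.smooth.comp_contDiffOn (contDiffOn_pi.mp hsm' _)).add contDiffOn_const).prodMk
      (contDiffOn_pi.mp hsm' _)
  · have hd : HasFDerivAt (fun z => ψ (pairL z)) ((fderiv ℝ ψ (pairL z)).comp pairL) z :=
      ((hsm.contDiffAt (hU.mem_nhds hz)).differentiableAt (by simp)).hasFDerivAt.comp z
        pairL.hasFDerivAt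
    have d0 := hasFDerivAt_pi'.mp hd 0
    have d1 := ((hf.smooth.differentiable (by simp) _).hasFDerivAt.comp z
      (hasFDerivAt_pi'.mp hd (0 : Fin 1).succ)).add_const (Complex.I / 2)
    have e := (d1.prodMk d0).fderiv
    simp only [Function.comp_def] at e
    rw [e]
    have k := hsy _ hz (pairL v) (pairL w)
    rw [sf_two, sf_two, pairL_zero, pairL_zero, pairL_succ, pairL_succ,
      ← hf.symp (ψ (pairL z) (0 : Fin 1).succ)] at k
    unfold BallT6.om at k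
    unfold sf2
    simp only [ContinuousLinearMap.prod_apply, ContinuousLinearMap.coe_comp, Function.comp_apply,
      ContinuousLinearMap.proj_apply]
    linarith
  · have k := hbd _ hz
    rw [Fin.sum_univ_one, ← BallT6.mu_eq_norm] at k
    have k1 := hf2 _ k.le
    obtain ⟨k2, k3, k4⟩ := hf1 (ψ (pairL z) (0 : Fin 1).succ)
    simp only [Set.mem_Ioo, Complex.add_re, Complex.add_im, Complex.div_ofNat_re,
      Complex.div_ofNat_im, Complex.I_re, Complex.I_im]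
    refine ⟨⟨?_, ?_⟩, ?_, ?_⟩ <;> linarith
  · have e3 := hf.inj (add_right_cancel e1)
    have e4 := hinj _ hz _ hz' (fun j => by rw [Subsingleton.elim j 0]; exact e3) e2
    have e5 := congrFun e4 0
    have e6 := congrFun e4 (0 : Fin 1).succ
    rw [pairL_zero, pairL_zero] at e5
    rw [pairL_succ, pairL_succ] at e6
    exact Prod.ext e5 e6

end Pool.Agent.Lib.BallU
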