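import Pool.Agent.Retired.MP_d7b9cc_gt.AllPackings
import Pool.Agent.Lib.MP_d7b9cc_gt.U.Impl

/-! The case of one ball of the packing theorem is the statement `Sharp`. -/

namespace Pool.Agent.Lib.BallU

theorem sharp_of_packings : Sharp := by
  intro N a b r hb ha hv
  have ha0 : 0 < a := lt_of_le_of_lt (by positivity) ha
  obtain ⟨U, ψ, h1, h2⟩ := Pool.Agent.Results.MP_d7b9cc_gt.AllPackings.result N 1 a b
    (fun _ => r) ha0 hb (fun _ => ha) (by simpa using hv)
  obtain ⟨c1, c2, c3, c4, c5, c6⟩ := h1 0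
  exact ⟨U 0, ψ 0, c1, c2, c3, c4, c5, c6,
    fun z hz z' hz' e e' => (h2 0 0 z hz z' hz' e e').2⟩

end Pool.Agent.Lib.BallU
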