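import Pool.Agent.Lib.MP_d7b9cc_gt.U.Rear

/-! The invariant is kept by each rearrangement. -/

open Finset Function

namespace Pool.Agent.Lib.BallU

variable {N T : ℕ} {L O : (Fin N → ℕ) → ℝ}

theorem inv_zero (hL : Adm T 0 L) (W : ℕ) : Inv T 0 L (OO T W L 0) := by
  have m1 : ∀ n : ℕ, ((W - (n + 1) : ℕ) : ℝ) ≤ ((W - n : ℕ) : ℝ) := fun n =>
    Nat.cast_le.2 (by omega)
  have m2 : ∀ n : ℕ, ((W - n : ℕ) : ℝ) ≤ ((W - (n + 1) : ℕ) : ℝ) + 1 := fun n => by
    exact_mod_cast (by omega : W - n ≤ W - (n + 1) + 1)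
  refine ⟨fun c _ => ?_, fun c i i' hc hi => ?_, fun c i i' hc => ?_, fun c i hc => ?_,
    fun c i _ hi => absurd hi (Nat.not_lt_zero _), fun c i hc => ?_, fun c i hc _ => ?_⟩ <;>
    simp only [OO, tot_up]
  · exact le_add_of_nonneg_right (Nat.cast_nonneg _)
  · linarith [hL.ord c i i' hc hi]
  · linarith [hL.hi c i hc, hL.lo c i' hc]
  · linarith [hL.hi c i hc, m1 (tot c)]
  · linarith [hL.lo c i hc, m2 (tot c)]
  · rcases le_or_gt (tot c + 1) W with h | h
    · have e : ((W - tot c : ℕ) : ℝ) = ((W - (tot c + 1) : ℕ) : ℝ) + 1 := by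
        exact_mod_cast (by omega : W - tot c = W - (tot c + 1) + 1)
      exact le_max_of_le_left (by linarith [hL.hi c i hc])
    · rw [show W - (tot c + 1) = 0 by omega]
      exact le_max_of_le_right (by simp)

theorem RR_setup (O : (Fin N → ℕ) → ℝ) (k : Fin N) {c : Fin N → ℕ} (hc : tot c + 1 < T) :
    ∃ H, c k < H ∧ (∀ s < H, tot (update c k s) + 1 < T) ∧
      RR T k O c = rear (H + 1) (fun s => O (update c k s)) (c k) ∧
      RR T k O (up c k) = rear (H + 1) (fun s => O (update c k s)) (c k + 1) ∧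
      ∀ i, i ≠ k → RR T k O (up c i) = rear H (fun s => O (up (update c k s) i)) (c k) := by
  have h0 := tot_eq c k
  have hl : len T c k = len T c k - 1 + 1 := by unfold len; omega
  refine ⟨len T c k - 1, by unfold len; omega, fun s hs => ?_, ?_, ?_, fun i hi => ?_⟩
  · rw [tot_update]; unfold len at hs; omega
  · rw [← hl]; rfl
  · rw [← hl, up, RR_update]; rfl
  · rw [RR, len_up_ne T c hi, up_ne c hi]
    congr 1
    funext s
    rw [line, up_update_ne c hi]

theorem Adm.line_le (hL : Adm T 0 L) {c : Fin N → ℕ} (hc : tot c + 1 < T) {i k : Fin N}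
    (hi : i ≠ k) {s : ℕ} (hs : s ≤ c k) : L (up (update c k s) i) ≤ L (up c i) := by
  have h0 := tot_eq c k
  induction hs using Nat.decreasingInduction with
  | self => rw [update_eq_self]
  | of_succ s hs ih =>
    have h1 := hL.lo (up (update c k s) i) k (by rw [tot_up, tot_update]; omega)
    rw [up_update_ne c hi, up_update_same, ← up_update_ne c hi, ← up_update_ne c hi] at h1
    linarith

theorem Inv.step (hL : Adm T 0 L) (k : Fin N) (h : Inv T k L O) :
    Inv T (k + 1) L (RR T k O) := by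
  have u : ∀ (c : Fin N → ℕ) (s : ℕ), O (update c k (s + 1)) = O (up (update c k s) k) :=
    fun c s => by rw [up_update_same]
  refine ⟨fun c hc => ?_, fun c i i' hc hi => ?_, fun c i i' hc => ?_, fun c i hc => ?_,
    fun c i hc hi => ?_, fun c i hc => ?_, fun c i hc hi => ?_⟩
  · have h1 := le_rear (H := len T c k) (g := line O c k) (g' := line L c k) (t := c k)
      (fun s hs => by
        have h2 := hL.lo (update c k s) k (by
          have := lt_len.1 hs
          rw [tot_update] at this ⊢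
          omega)
        rw [up_update_same, add_zero] at h2
        exact h2)
      (fun s hs => h.a _ (lt_len.1 hs)) (lt_len.2 (by rwa [update_eq_self]))
    rw [line, update_eq_self] at h1
    exact h1
  all_goals obtain ⟨H, ht, hs, e0, e1, e2⟩ := RR_setup O k hc
  · by_cases hk : i = k <;> by_cases hk' : i' = k
    · rw [hk, hk']
    · rw [hk, e1, e2 i' hk']
      refine (rear_shift (x := 0) (fun s h1 => ?_) ht).trans_eq (add_zero _)
      rw [u, add_zero]
      exact h.b _ _ _ (hs s h1) (hk ▸ hi)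
    · rw [hk', e1, e2 i hk]
      refine (rear_double (x := 0) (fun s h1 => ?_) ht).trans_eq (add_zero _)
      rw [u, add_zero]
      have hik : i ≤ k := hk' ▸ hi
      exact ⟨h.d1 _ _ (hs s h1) (hik.lt_of_ne hk), h.b _ _ _ (hs s h1) hik⟩
    · rw [e2 i hk, e2 i' hk']
      refine (rear_incl (x := 0) le_rfl (fun s h1 => ?_) ht).trans_eq (add_zero _)
      rw [add_zero]
      exact h.b _ _ _ (hs s h1) hi
  · by_cases hk : i = k <;> by_cases hk' : i' = k
    · rw [hk, hk']; linarith
    · rw [hk, e1, e2 i' hk']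
      refine rear_double (fun s h1 => ?_) ht
      rw [u]
      exact ⟨h.d2 _ _ (hs s h1), h.c1 _ _ _ (hs s h1)⟩
    · rw [hk', e1, e2 i hk]
      refine rear_shift (fun s h1 => ?_) ht
      rw [u]
      exact h.c1 _ _ _ (hs s h1)
    · rw [e2 i hk, e2 i' hk']
      exact rear_incl le_rfl (fun s h1 => h.c1 _ _ _ (hs s h1)) ht
  · by_cases hk : i = k
    · rw [hk, e0, e1]
      refine rear_step (fun s h1 => ?_) (by omega)
      rw [u]
      exact ⟨h.c2 _ _ (hs s (by omega)), h.d2 _ _ (hs s (by omega))⟩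
    · rw [e0, e2 i hk]
      refine rear_gap (x := 1) (fun s h1 => ?_)
        (fun s h1 h2 => (h.c2 _ _ (hs s (by omega))).trans h2) ht le_rfl
      rw [u]
      exact h.c1 _ _ _ (hs s h1)
  · by_cases hk : i = k
    · rw [hk, e0, e1]
      exact rear_mono (by omega)
    · rw [e0, e2 i hk]
      refine (rear_incl (x := 0) (Nat.le_succ H) (fun s h1 => ?_) ht).trans_eq (add_zero _)
      rw [add_zero]
      exact h.d1 _ _ (hs s h1) (lt_of_le_of_ne (Nat.lt_succ_iff.1 hi) fun e => hk (Fin.ext e))
  · by_cases hk : i = k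
    · rw [hk, e0, e1]
      exact (rear_mono (by omega)).trans (le_add_of_nonneg_right zero_le_one)
    · rw [e0, e2 i hk]
      exact rear_incl (Nat.le_succ H) (fun s h1 => h.d2 _ _ (hs s h1)) ht
  · have hki : (k : ℕ) < i := hi
    have hk : i ≠ k := fun e => by rw [e] at hki; exact lt_irrefl _ hki
    rw [e0, e2 i hk]
    refine rear_gap (g := fun s => O (update c k s)) (x := 0) (fun s h1 => ?_)
      (fun s h1 h2 => ?_) ht ((add_zero _).trans_le (le_max_left _ _))
    · rw [u, add_zero]
      exact h.b _ _ _ (hs s h1) hki.le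
    · refine (h.e _ _ (hs s (by omega)) hki.le).trans (max_le ?_ ?_)
      · rwa [add_zero] at h2
      · exact le_max_of_le_right (hL.line_le hc hk h1)

theorem inv_OO (hL : Adm T 0 L) (W : ℕ) : ∀ k ≤ N, Inv T k L (OO T W L k) := by
  intro k
  induction k with
  | zero => exact fun _ => inv_zero hL W
  | succ k ih =>
    intro hk
    have hk' : k < N := hk
    rw [OO, dif_pos hk']
    exact Inv.step hL ⟨k, hk'⟩ (ih hk'.le)

theorem Inv.adm (h : Inv T N L O) : Adm T 0 O :=
  ⟨fun c i hc => by simpa using h.d1 c i hc i.2, h.c2, h.b⟩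

end Pool.Agent.Lib.BallU
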