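import Pool.Agent.Lib.MP_d7b9cc_gt.U.Sub

/-! A chain of entry times for several balls. -/

open Finset Function

namespace Pool.Agent.Lib.BallU

variable {N T : ℕ}

theorem exists_sub_abs (F : ((Fin N → ℕ) → ℝ) → (Fin N → ℕ) → ℝ) {γ : ℝ}
    (hγ : 0 < γ) (hA : ∀ L, Adm T 0 L → Adm T 0 (F L))
    (hm : ∀ L L', (∀ c, tot c < T → L c ≤ L' c) → ∀ c, tot c < T → F L c ≤ F L' c)
    (hs : ∀ L, ∑ c ∈ dom N T, F L c = ∑ c ∈ dom N T, L c - γ) :
    ∃ J, Adm T 0 J ∧ ∀ c, tot c < T → F J c ≤ J c := by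
  have a0 : ∀ k, Adm T 0 (F^[k] fun _ => 0) := fun k => by
    induction k with
    | zero => exact ⟨fun c i _ => by simp, fun c i _ => by simp, fun c i i' _ _ => by simp⟩
    | succ k ih =>
      rw [iterate_succ_apply']
      exact hA _ ih
  have s0 : ∀ k : ℕ, ∑ c ∈ dom N T, (F^[k] fun _ => 0) c = -(k * γ) := fun k => by
    induction k with
    | zero => simp
    | succ k ih =>
      rw [iterate_succ_apply', hs, ih]
      push_cast
      ring
  obtain ⟨k, hk⟩ := exists_nat_ge ((T : ℝ) * (dom N T).card / γ)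
  have neg : ∀ c, tot c < T → (F^[k + 1] fun _ => 0) c ≤ 0 := fun c hc => by
    have hcard : (0 : ℝ) < (dom N T).card := by
      exact_mod_cast card_pos.2 ⟨c, mem_dom.2 hc⟩
    have h1 : ((dom N T).card : ℝ) * (F^[k + 1] fun _ => 0) 0 ≤
        ∑ c ∈ dom N T, (F^[k + 1] fun _ => 0) c := by
      rw [← nsmul_eq_mul]
      exact card_nsmul_le_sum _ _ _ fun c hc => ((a0 (k + 1)).osc (mem_dom.1 hc)).1
    have h2 := ((a0 (k + 1)).osc hc).2
    have h3 : (tot c : ℝ) ≤ T := by exact_mod_cast hc.le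
    rw [div_le_iff₀ hγ] at hk
    rw [s0] at h1
    have h4 : ((dom N T).card : ℝ) * (F^[k + 1] fun _ => 0) 0 ≤ ((dom N T).card : ℝ) * (-T) := by
      push_cast at h1
      nlinarith
    have h5 := le_of_mul_le_mul_left h4 hcard
    linarith
  obtain ⟨J, h1, h2, h3⟩ := exists_inf (fun j => F^[j] fun _ => 0) a0 k
  refine ⟨J, h1, fun c hc => ?_⟩
  have key : ∀ j ≤ k, F J c ≤ (F^[j + 1] fun _ => 0) c := fun j hj => by
    rw [iterate_succ_apply']
    exact hm _ _ (fun c _ => h2 j hj c) c hc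
  refine h3 c _ fun j hj => ?_
  cases j with
  | zero => exact (key k le_rfl).trans (neg c hc)
  | succ j => exact key j (Nat.le_of_succ_le hj)

/-- The exit times after the first `i` balls. -/
noncomputable def GG (T : ℕ) (W : ℕ → ℕ) (J : (Fin N → ℕ) → ℝ) : ℕ → (Fin N → ℕ) → ℝ
  | 0 => J
  | i + 1 => OO T (W i) (GG T W J i) N

theorem adm_GG (W : ℕ → ℕ) {J : (Fin N → ℕ) → ℝ} (h : Adm T 0 J) (i : ℕ) :
    Adm T 0 (GG T W J i) := by
  induction i with
  | zero => exact h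
  | succ i ih => exact (inv_OO ih (W i) N le_rfl).adm

theorem GG_le (W : ℕ → ℕ) {J J' : (Fin N → ℕ) → ℝ} (h : ∀ c, tot c < T → J c ≤ J' c) (i : ℕ) :
    ∀ c, tot c < T → GG T W J i c ≤ GG T W J' i c := by
  induction i with
  | zero => exact h
  | succ i ih =>
    intro c hc
    simpa only [add_zero, GG] using
      OO_le (W i) (x := 0) (fun c hc => by simpa only [add_zero] using ih c hc) N c hc

theorem sum_GG (W : ℕ → ℕ) (J : (Fin N → ℕ) → ℝ) (i : ℕ) : ∑ c ∈ dom N T, GG T W J i c =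
    ∑ c ∈ dom N T, J c + ∑ j ∈ range i, ((∑ c ∈ dom N T, (W j - tot c) : ℕ) : ℝ) := by
  induction i with
  | zero => simp [GG]
  | succ i ih => rw [GG, sum_OO, ih, sum_range_succ, add_assoc]

theorem vol_sum_lt (N T k : ℕ) (W : ℕ → ℕ) (hT : 0 < T) {B : ℝ}
    (hv : ∑ j ∈ range k, ((W j : ℝ) + N) ^ (N + 1) < (N + 1) * B * (T : ℝ) ^ N) :
    ∑ j ∈ range k, ((∑ c ∈ dom N T, (W j - tot c) : ℕ) : ℝ) < B * (dom N T).card := by
  have h1 : (((N + 1).factorial : ℕ) : ℝ) *
      ∑ j ∈ range k, ((∑ c ∈ dom N T, (W j - tot c) : ℕ) : ℝ) ≤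
      ∑ j ∈ range k, ((W j : ℝ) + N) ^ (N + 1) := by
    rw [mul_sum]
    exact sum_le_sum fun j _ => by exact_mod_cast sum_tent_le N T (W j)
  have h2 : (T : ℝ) ^ N ≤ (N.factorial : ℝ) * (dom N T).card := by
    exact_mod_cast pow_le_card_dom N T hT
  have hp : (0 : ℝ) < (T : ℝ) ^ N := by positivity
  have hB : (0 : ℝ) < (N + 1) * B := by
    have h0 : (0 : ℝ) ≤ ∑ j ∈ range k, ((W j : ℝ) + N) ^ (N + 1) :=
      sum_nonneg fun j _ => by positivity
    exact (mul_pos_iff_of_pos_right hp).1 (h0.trans_lt hv)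
  have h3 := mul_le_mul_of_nonneg_left h2 hB.le
  have h4 : (((N + 1).factorial : ℕ) : ℝ) = (N + 1) * (N.factorial : ℝ) := by
    rw [Nat.factorial_succ]
    push_cast
    ring
  have h5 : (0 : ℝ) < (((N + 1).factorial : ℕ) : ℝ) := by exact_mod_cast Nat.factorial_pos _
  refine lt_of_mul_lt_mul_left ?_ h5.le
  calc _ ≤ _ := h1
    _ < _ := hv
    _ ≤ _ := h3
    _ = _ := by rw [h4]; ring

theorem exists_chain (N T k : ℕ) (W : ℕ → ℕ) (hT : 0 < T) {B η : ℝ} (h0 : 0 ≤ η) (h1 : η ≤ 1)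
    (hv : ∑ j ∈ range k, ((W j : ℝ) + N) ^ (N + 1) < (N + 1) * B * (T : ℝ) ^ N) :
    ∃ L : ℕ → (Fin N → ℕ) → ℝ, (∀ i, Adm T η (L i)) ∧
      (∀ i c, tot c < T → OO T (W i) (L i) N c ≤ L (i + 1) c) ∧
      ∀ c, tot c < T → L k c ≤ L 0 c + B + (k + 1) * η * T := by
  obtain ⟨J, hJ, hs⟩ := exists_sub_abs (T := T) (fun J c => GG T W J k c - B)
    (sub_pos.2 (vol_sum_lt N T k W hT hv)) (fun L hL => (adm_GG W hL k).sub_const B)
    (fun L L' h c hc => sub_le_sub_right (GG_le W h k c hc) B) (fun L => by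
      rw [sum_sub_distrib, sum_GG, sum_const, nsmul_eq_mul]
      ring)
  have h2 : 0 ≤ 1 - η := sub_nonneg.2 h1
  have lo : ∀ i c, tot c < T → GG T W J i c ≤
      (1 - η) * GG T W J i c + η * (tot c + GG T W J i 0) := fun i c hc => by
    have := mul_le_mul_of_nonneg_left ((adm_GG W hJ i).osc hc).2 h0
    linarith
  have hi : ∀ i c, tot c < T → (1 - η) * GG T W J i c + η * (tot c + GG T W J i 0) ≤
      GG T W J i c + η * T := fun i c hc => by
    have h4 := mul_le_mul_of_nonneg_left ((adm_GG W hJ i).osc hc).1 h0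
    have h5 : (tot c : ℝ) ≤ T := by exact_mod_cast hc.le
    have h6 := mul_le_mul_of_nonneg_left h5 h0
    linarith
  refine ⟨fun i c => (1 - η) * GG T W J i c + η * (tot c + GG T W J i 0) + i * η * T,
    fun i => ⟨fun c l hc => ?_, fun c l hc => ?_, fun c l l' hc hl => ?_⟩, fun i c hc => ?_,
    fun c hc => ?_⟩
  · have := mul_le_mul_of_nonneg_left ((adm_GG W hJ i).lo c l hc) h2
    beta_reduce
    rw [tot_up]
    push_cast
    linarith
  · have := mul_le_mul_of_nonneg_left ((adm_GG W hJ i).hi c l hc) h2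
    beta_reduce
    rw [tot_up]
    push_cast
    linarith
  · have := mul_le_mul_of_nonneg_left ((adm_GG W hJ i).ord c l l' hc hl) h2
    beta_reduce
    rw [tot_up, tot_up]
    linarith
  · have h3 := OO_le (W i) (x := η * T + i * η * T) (L' := GG T W J i)
      (L := fun c => (1 - η) * GG T W J i c + η * (tot c + GG T W J i 0) + i * η * T)
      (fun c hc => by linarith [hi i c hc]) N c hc
    have h4 := lo (i + 1) c hc
    have h5 : GG T W J (i + 1) c = OO T (W i) (GG T W J i) N c := rfl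
    beta_reduce
    push_cast
    linarith
  · have h3 := hi k c hc
    have h4 := lo 0 c hc
    have h5 := hs c hc
    have h6 : GG T W J 0 c = J c := rfl
    simp only [Nat.cast_zero, zero_mul, add_zero]
    linarith

end Pool.Agent.Lib.BallU
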