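import Pool.Agent.Lib.MP_d7b9cc_gt.U.Dat
import Pool.Agent.Lib.MP_d7b9cc_gt.U.Geo

/-! The ball in a ball times a punctured torus. -/

open Finset Function
open scoped ContDiff

namespace Pool.Agent.Lib.BallU

open Pool.Agent.Lib.BallT6

theorem ball_sharp (E : Type) [NormedAddCommGroup E] [NormedSpace ℝ E] (N : ℕ) {a b ρ : ℝ}
    (hb : 0 < b) (hρ : 0 ≤ ρ) (ha : ρ < a) (hv : ρ ^ (N + 1) < (N + 1) * a ^ N * b) :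
    ∃ Ψ : (ℕ → ℂ) → ℕ → ℂ,
      (∀ z, ∑ l ∈ range (N + 1), mu (z l) ≤ ρ → Good E (N + 1) Ψ z ∧
        ∑ i ∈ range N, mu (Ψ z (i + 1)) < a ∧
        ∀ k l : ℤ, Ψ z 0 ≠ (k : ℂ) * (b : ℂ) + (l : ℂ) * Complex.I) ∧
      ∀ z z', ∑ l ∈ range (N + 1), mu (z l) ≤ ρ → ∑ l ∈ range (N + 1), mu (z' l) ≤ ρ →
        (∀ i < N, Ψ z (i + 1) = Ψ z' (i + 1)) → ∀ k l : ℤ,
          Ψ z' 0 - Ψ z 0 = (k : ℂ) * (b : ℂ) + (l : ℂ) * Complex.I → ∀ j < N + 1, z j = z' j := by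
  obtain ⟨ε, s, S, h⟩ := exists_data N hb hρ ha hv
  exact geo E h

end Pool.Agent.Lib.BallU
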