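import Pool.Agent.Lib.MP_d7b9cc_gt.U.Rear

/-! The window for a shift is not empty, uniformly for neighbouring points. -/

open Finset Function

namespace Pool.Agent.Lib.BallU

variable {N T : ℕ} {η : ℝ} {L O : (Fin N → ℕ) → ℝ}

theorem below_near (h : ∀ c i, tot c + 1 < T → O (up c i) ≤ O c + 1 ∧ O c ≤ O (up c i) + 1)
    {c : Fin N → ℕ} (hc : tot c < T) (d : ℕ) :
    ∀ m : Fin N → ℕ, (∀ i, m i ≤ c i) → tot c = tot m + d → O c ≤ O m + d ∧ O m ≤ O c + d := by
  induction d with
  | zero =>
    intro m hm ht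
    have e : m = c := by
      funext i
      exact (sum_eq_sum_iff_of_le (s := univ) (f := m) (g := c) (fun j _ => hm j)).1
        (by simpa [tot] using ht.symm) i (mem_univ i)
    subst e
    simp
  | succ d ih =>
    intro m hm ht
    obtain ⟨i, hi⟩ : ∃ i, m i < c i := by
      by_contra hne
      push Not at hne
      have : tot c ≤ tot m := sum_le_sum fun j _ => hne j
      omega
    have hu : ∀ j, up m i j ≤ c j := by
      intro j
      by_cases hj : j = i
      · subst hj
        simp only [up, update_self]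
        omega
      · rw [up_ne m (Ne.symm hj)]
        exact hm j
    have h1 := ih (up m i) hu (by rw [tot_up]; omega)
    have h2 := h m i (by omega)
    push_cast
    constructor <;> linarith [h1.1, h1.2, h2.1, h2.2]

/-- Values at neighbouring cells differ by at most `N`. -/
theorem near_le (h : ∀ c i, tot c + 1 < T → O (up c i) ≤ O c + 1 ∧ O c ≤ O (up c i) + 1)
    {c c' : Fin N → ℕ} (hc : tot c < T) (hc' : tot c' < T)
    (hn : ∀ i, c i ≤ c' i + 1 ∧ c' i ≤ c i + 1) : O c ≤ O c' + N := by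
  set m : Fin N → ℕ := fun i => min (c i) (c' i) with hm
  have m1 : ∀ i, m i ≤ c i := fun i => min_le_left _ _
  have m2 : ∀ i, m i ≤ c' i := fun i => min_le_right _ _
  obtain ⟨d, hd⟩ := Nat.exists_eq_add_of_le (show tot m ≤ tot c from sum_le_sum fun j _ => m1 j)
  obtain ⟨d', hd'⟩ := Nat.exists_eq_add_of_le (show tot m ≤ tot c' from sum_le_sum fun j _ => m2 j)
  have h1 := (below_near h hc d m m1 hd).1
  have h2 := (below_near h hc' d' m m2 hd').2
  have h3 : tot c + tot c' ≤ tot m + tot m + N := by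
    have : ∑ i, (c i + c' i) ≤ ∑ i : Fin N, (m i + m i + 1) := by
      refine sum_le_sum fun i _ => ?_
      have := hn i
      simp only [hm]
      omega
    simpa [sum_add_distrib, tot] using this
  have h4 : ((d + d' : ℕ) : ℝ) ≤ N := by exact_mod_cast (by omega : d + d' ≤ N)
  push_cast at h4
  linarith

theorem floor_near {x y : ℝ} (h : x < y + 1) : ⌊x⌋₊ ≤ ⌊y⌋₊ + 1 := by
  have h1 : ⌊x⌋₊ < ⌊y⌋₊ + 2 := by
    rw [Nat.floor_lt' (by omega)]
    have := Nat.lt_floor_add_one y
    push_cast
    linarith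
  omega

theorem fl_near {A A' : Fin (N + 1) → ℝ} {i : Fin N} (h : |A i.succ - A' i.succ| < 1) :
    fl A i ≤ fl A' i + 1 ∧ fl A' i ≤ fl A i + 1 := by
  rw [abs_lt] at h
  exact ⟨floor_near (by linarith [h.2]), floor_near (by linarith [h.1])⟩

/-- The lower end of the window. -/
noncomputable def wlo (T K : ℕ) (O : (Fin N → ℕ) → ℝ) (k : Fin N) (A : Fin (N + 1) → ℝ) : ℝ :=
  cnt (len T (fl A) k) (line O (fl A) k) (A 0 + K)

/-- The upper end of the window. -/
noncomputable def whi (T K : ℕ) (L : (Fin N → ℕ) → ℝ) (k : Fin N) (A : Fin (N + 1) → ℝ) : ℝ :=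
  min (cnt (len T (fl A) k) (line L (fl A) k) (A 0 - K) : ℝ) ((len T (fl A) k : ℝ) - K)

theorem slope_le {H : ℕ} {g : ℕ → ℝ} {e : ℝ} (h : ∀ s, s + 1 < H → g s + e ≤ g (s + 1))
    (a j : ℕ) (hj : a + j < H) : g a + e * j ≤ g (a + j) := by
  induction j with
  | zero => simp
  | succ j ih =>
    have h1 := ih (by omega)
    have h2 := h (a + j) (by omega)
    rw [← add_assoc]
    push_cast
    linarith

theorem succ_lt_len {c : Fin N → ℕ} {k : Fin N} {s : ℕ} (h : s + 1 < len T c k) :
    tot (update c k s) + 1 < T := by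
  rw [lt_len, tot_update] at h
  rw [tot_update]
  omega

theorem line_succ (O : (Fin N → ℕ) → ℝ) (c : Fin N → ℕ) (k : Fin N) (s : ℕ) :
    line O c k (s + 1) = O (up (update c k s) k) := by
  rw [line, up_update_same]

theorem cnt_near (h : ∀ c i, tot c + 1 < T → O (up c i) ≤ O c + 1 ∧ O c ≤ O (up c i) + 1)
    {c c' : Fin N → ℕ} (k : Fin N) (hn : ∀ i, i ≠ k → c i ≤ c' i + 1 ∧ c' i ≤ c i + 1)
    {X Y : ℝ} (hXY : X + N ≤ Y) :
    cnt (len T c k) (line O c k) X ≤ cnt (len T c' k) (line O c' k) Y + N := by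
  have hn' : ∀ s i, update c' k s i ≤ update c k s i + 1 ∧ update c k s i ≤ update c' k s i + 1 := by
    intro s i
    by_cases hi : i = k
    · subst hi
      simp
    · rw [update_of_ne hi, update_of_ne hi]
      exact (hn i hi).symm
  have hlen : len T c k ≤ len T c' k + N := by
    have : tot (update c' k 0) ≤ tot (update c k 0) + N := by
      have : ∑ i, update c' k 0 i ≤ ∑ i : Fin N, (update c k 0 i + 1) :=
        sum_le_sum fun i _ => (hn' 0 i).1
      simpa [sum_add_distrib, tot] using this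
    unfold len
    omega
  unfold cnt
  have hsub : ((range (len T c k)).filter fun s => line O c k s ≤ X) ⊆
      ((range (len T c' k)).filter fun s => line O c' k s ≤ Y) ∪ Ico (len T c' k) (len T c k) := by
    intro s hs
    simp only [mem_filter, mem_range, mem_union, mem_Ico] at hs ⊢
    by_cases h1 : s < len T c' k
    · refine Or.inl ⟨h1, ?_⟩
      have := near_le h (lt_len.1 h1) (lt_len.1 hs.1) (hn' s)
      have h2 := hs.2
      simp only [line] at h2 ⊢
      linarith
    · exact Or.inr ⟨by omega, hs.1⟩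
  have := (card_le_card hsub).trans (card_union_le _ _)
  rw [Nat.card_Ico] at this
  omega

theorem pair (hη : 0 < η) (hL : Adm T η L) (k : Fin N) (hO : Inv T k L O) (K : ℕ)
    {A A' : Fin (N + 1) → ℝ} (hA : Q T (nxt N η K) L O k A) (hA' : Q T (nxt N η K) L O k A')
    (hn : ∀ i : Fin N, i ≠ k → |A i.succ - A' i.succ| < 1) (h0 : |A 0 - A' 0| < 2) :
    wlo T K O k A + A' k.succ + 2 ≤ whi T K L k A' := by
  set r : ℕ := ⌈(N : ℝ) + 3 + K + (2 * K + 2 + N) / η⌉₊ with hr
  have hrle : (N : ℝ) + 3 + K + (2 * K + 2 + N) / η ≤ r := Nat.le_ceil _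
  have hnx : nxt N η K = K + N + 3 + r := rfl
  set Y : ℝ := A' 0 + K + 2 + N with hY
  rw [abs_lt] at h0
  have s1 := cnt_near (T := T) (O := O) (fun c i hc => ⟨hO.c2 c i hc, hO.d2 c i hc⟩)
    (c := fl A) (c' := fl A') k (fun i hi => fl_near (hn i hi)) (X := A 0 + K) (Y := Y)
    (by rw [hY]; linarith [h0.2])
  unfold wlo whi
  set c := fl A' with hc
  set H := len T c k with hH
  set gL := line L c k with hgL
  set gO := line O c k with hgO
  set t := c k with ht
  have htL : gL t = L c := by simp [hgL, ht, line]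
  have htO : gO t = O c := by simp [hgO, ht, line]
  have hmar : t + (K + N + 3 + r) ≤ H := by
    have h1 := hA'.mar
    rw [hnx, ← hc, tot_eq c k] at h1
    rw [hH, len]
    omega
  have hlo : gL t + (K + N + 3 + r) ≤ A' 0 := by
    have h1 := hA'.lo
    rw [hnx, ← hc] at h1
    push_cast at h1
    rw [htL]
    exact h1
  have hhi : A' 0 + (K + N + 3 + r) ≤ gO t := by
    have h1 := hA'.hi
    rw [hnx, ← hc] at h1
    push_cast at h1
    rw [htO]
    exact h1
  have Ls : ∀ s, s + 1 < H → gL s + η ≤ gL (s + 1) := fun s hs => by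
    rw [hgL, line_succ]
    exact hL.lo _ k (succ_lt_len hs)
  have Lm : ∀ s, s + 1 < H → gL s ≤ gL (s + 1) := fun s hs => by linarith [Ls s hs]
  have Lu : ∀ s, s + 1 < H → -gL s + (-1) ≤ -gL (s + 1) := fun s hs => by
    have := hL.hi _ k (succ_lt_len hs)
    rw [hgL, line_succ, line]
    linarith
  have Od : ∀ s, s + 1 < H → gO s + (-1) ≤ gO (s + 1) := fun s hs => by
    have := hO.d2 _ k (succ_lt_len hs)
    rw [hgO, line_succ, line]
    linarith
  have Oe : ∀ s, s + 1 < H → gO (s + 1) ≤ max (gO s) (gL (s + 1)) := fun s hs => by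
    rw [hgO, hgL, line_succ, line_succ]
    exact hO.e _ k (succ_lt_len hs) le_rfl
  have LO : ∀ s, s < H → gL s ≤ gO s := fun s hs => hO.a _ (lt_len.1 hs)
  have hK : (0 : ℝ) ≤ K := Nat.cast_nonneg _
  have hN : (0 : ℝ) ≤ N := Nat.cast_nonneg _
  have hr0 : (0 : ℝ) ≤ r := Nat.cast_nonneg _
  have low : ∀ j s, s + j = t → A' 0 + (K + N + 3 + r) ≤ gO s := by
    intro j
    induction j with
    | zero =>
      intro s hs
      obtain rfl : s = t := by omega
      exact hhi
    | succ j ih =>
      intro s hs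
      have h1 := ih (s + 1) (by omega)
      have h2 := Oe s (by omega)
      have h3 := slope_le (e := 0) (g := gL) (H := H) (fun s hs => by linarith [Lm s hs]) (s + 1) j
        (by omega)
      rw [show s + 1 + j = t by omega] at h3
      rcases le_max_iff.1 (h1.trans h2) with h4 | h4
      · exact h4
      · linarith
  have big : ∀ s, s ≤ t + r → Y < gO s := by
    intro s hs
    rcases le_total s t with h1 | h1
    · have := low (t - s) s (by omega)
      rw [hY]
      linarith
    · obtain ⟨j, rfl⟩ := Nat.exists_eq_add_of_le h1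
      have h2 := slope_le Od t j (by omega)
      have h3 : (j : ℝ) ≤ r := by exact_mod_cast (by omega : j ≤ r)
      rw [hY]
      linarith
  set e1 := cnt H gL Y with he1
  set e2 := cnt H gL (A' 0 - K) with he2
  have s2 : cnt H gO Y ≤ e1 - (t + r + 1) := by
    rw [← Nat.card_Ico]
    refine card_le_card fun s hs => ?_
    simp only [mem_filter, mem_range] at hs
    rw [mem_Ico]
    refine ⟨?_, (lt_cnt_iff Lm hs.1).2 ((LO s hs.1).trans hs.2)⟩
    by_contra h1
    exact absurd (big s (by omega)) (not_lt.2 hs.2)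
  have s3 : e1 ≤ H := cnt_le _ _ _
  have s4 : t + r < e1 := by
    refine (lt_cnt_iff Lm (by omega)).2 ?_
    have := slope_le (g := fun s => -gL s) Lu t r (by omega)
    rw [hY]
    linarith
  have hq : (0 : ℝ) ≤ (2 * K + 2 + N) / η := by positivity
  have s5 : (e1 : ℝ) ≤ e2 + (2 * K + 2 + N) / η + 1 := by
    rcases le_or_gt e1 e2 with h1 | h1
    · have : (e1 : ℝ) ≤ e2 := by exact_mod_cast h1
      linarith
    · obtain ⟨j, hj⟩ := Nat.exists_eq_add_of_lt h1
      have h2 : ¬ gL e2 ≤ A' 0 - K := fun h => lt_irrefl _ ((lt_cnt_iff Lm (by omega)).2 h)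
      have h3 : gL (e2 + j) ≤ Y := (lt_cnt_iff Lm (by omega)).1 (by omega)
      have h4 := slope_le Ls e2 j (by omega)
      have h5 : (j : ℝ) ≤ (2 * K + 2 + N) / η := by
        rw [le_div_iff₀ hη]
        rw [hY] at h3
        push Not at h2
        linarith
      rw [hj]
      push_cast
      linarith
  have s6 : A' k.succ < t + 1 := Nat.lt_floor_add_one _
  have s7 : (cnt (len T (fl A) k) (line O (fl A) k) (A 0 + K) : ℝ) + (t + r + 1) ≤ e1 + N := by
    exact_mod_cast (by omega :
      cnt (len T (fl A) k) (line O (fl A) k) (A 0 + K) + (t + r + 1) ≤ e1 + N)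
  have s8 : (e1 : ℝ) ≤ H := by exact_mod_cast s3
  refine le_min ?_ ?_ <;> linarith

theorem fl_update (A : Fin (N + 1) → ℝ) (k : Fin N) (x : ℝ) :
    fl (update A k.succ x) = update (fl A) k ⌊x⌋₊ := by
  funext i
  by_cases hi : i = k
  · subst hi
    simp [fl]
  · rw [update_of_ne hi, fl, fl, update_of_ne fun h => hi (Fin.succ_injective _ h)]

theorem window (hL : Adm T 0 L) (k : Fin N) (K K' : ℕ) {A : Fin (N + 1) → ℝ}
    (hA : Q T K' L O k A) {x : ℝ} (h0 : 0 < x) (h1 : wlo T K O k A ≤ x) (h2 : x < whi T K L k A) :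
    Q T K L (RR T k O) (k + 1) (update A k.succ x) := by
  unfold wlo at h1
  unfold whi at h2
  rw [lt_min_iff] at h2
  have hfl : (⌊x⌋₊ : ℝ) ≤ x := Nat.floor_le h0.le
  have hK : (0 : ℝ) ≤ K := Nat.cast_nonneg _
  have hz : update A k.succ x 0 = A 0 := update_of_ne (Fin.succ_ne_zero k).symm _ _
  have hH : ⌊x⌋₊ + K < len T (fl A) k := by
    have : ((⌊x⌋₊ + K : ℕ) : ℝ) < len T (fl A) k := by
      push_cast
      linarith [h2.2]
    exact_mod_cast this
  have Lm : ∀ s, s + 1 < len T (fl A) k → line L (fl A) k s ≤ line L (fl A) k (s + 1) :=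
    fun s hs => by
      have := hL.lo _ k (succ_lt_len hs)
      rw [line_succ, line]
      linarith
  refine ⟨fun i => ?_, fun i hi => ?_, ?_, ?_, ?_⟩
  · by_cases h : i = k
    · subst h
      simpa using h0.le
    · rw [update_of_ne fun e => h (Fin.succ_injective _ e)]
      exact hA.nn i
  · by_cases h : i = k
    · subst h
      simpa using h0
    · rw [update_of_ne fun e => h (Fin.succ_injective _ e)]
      exact hA.pos i (by have := Fin.val_ne_of_ne h; omega)
  · rw [fl_update, tot_update]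
    rw [len] at hH
    omega
  · rw [fl_update, hz]
    have h3 : ⌊x⌋₊ < cnt (len T (fl A) k) (line L (fl A) k) (A 0 - K) := by
      exact_mod_cast hfl.trans_lt h2.1
    have h4 := (lt_cnt_iff Lm (by omega)).1 h3
    rw [line] at h4
    linarith
  · rw [fl_update, hz, RR_update]
    by_contra h
    have h3 := (rear_le_iff (by omega)).1 (not_le.1 h).le
    have h4 : ((⌊x⌋₊ + 1 : ℕ) : ℝ) ≤ cnt (len T (fl A) k) (line O (fl A) k) (A 0 + K) := by
      exact_mod_cast h3
    push_cast at h4
    linarith [Nat.lt_floor_add_one x]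

end Pool.Agent.Lib.BallU
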