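import Pool.Agent.Lib.MP_d7b9cc_gt.U.Defs

/-! Increasing rearrangement on one line. -/

open Finset Function

namespace Pool.Agent.Lib.BallU

variable {H H' : ℕ} {g g' : ℕ → ℝ} {t : ℕ} {x X : ℝ}

theorem rear_le_iff (ht : t < H) : rear H g t ≤ X ↔ t < cnt H g X := by
  have h1 := Tuple.lt_card_le_iff_apply_le_of_monotone (j := ⟨t, ht⟩) (a := X)
    (Tuple.monotone_sort (fun s : Fin H => g s))
  have h2 : #{i : Fin H | ((fun s : Fin H => g s) ∘ Tuple.sort (fun s : Fin H => g s)) i ≤ X}
      = #{i : Fin H | g i ≤ X} :=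
    Finset.card_bijective _ (Tuple.sort (fun s : Fin H => g s)).bijective (by simp)
  have h3 : #{i : Fin H | g i ≤ X} = cnt H g X := by
    rw [cnt, card_filter, card_filter]
    exact Fin.sum_univ_eq_sum_range (fun s => if g s ≤ X then 1 else 0) H
  rw [h2, h3] at h1
  rw [rear, dif_pos ht]
  exact h1.symm

theorem sum_rear (H : ℕ) (g : ℕ → ℝ) : ∑ t ∈ range H, rear H g t = ∑ t ∈ range H, g t := by
  rw [← Fin.sum_univ_eq_sum_range (fun t => rear H g t) H, ← Fin.sum_univ_eq_sum_range g H,
    ← Equiv.sum_comp (Tuple.sort (fun s : Fin H => g s)) (fun s : Fin H => g s)]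
  exact Finset.sum_congr rfl fun i _ => by rw [rear, dif_pos i.2]

theorem cnt_le (H : ℕ) (g : ℕ → ℝ) (X : ℝ) : cnt H g X ≤ H := by
  exact (card_filter_le _ _).trans (card_range H).le

/-- For a monotone sequence the counted points form an initial segment. -/
theorem lt_cnt_iff (hg : ∀ s, s + 1 < H → g s ≤ g (s + 1)) (ht : t < H) :
    t < cnt H g X ↔ g t ≤ X := by
  have hm : ∀ s d, s + d < H → g s ≤ g (s + d) := by
    intro s d
    induction d with
    | zero => intro _; exact le_rfl
    | succ d ih => intro h; exact (ih (by omega)).trans (hg (s + d) h)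
  constructor
  · intro h
    by_contra h1
    have : cnt H g X ≤ (range t).card := card_le_card fun s hs => by
      obtain ⟨h2, h3⟩ := mem_filter.mp hs
      rw [mem_range] at h2 ⊢
      by_contra h4
      have := hm t (s - t) (by omega)
      rw [show t + (s - t) = s by omega] at this
      exact h1 (this.trans h3)
    rw [card_range] at this
    omega
  · intro h
    have : (range (t + 1)).card ≤ cnt H g X := card_le_card fun s hs => by
      rw [mem_range] at hs
      have := hm s (t - s) (by omega)
      rw [show s + (t - s) = t by omega] at this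
      exact mem_filter.mpr ⟨mem_range.mpr (by omega), this.trans h⟩
    rw [card_range] at this
    omega

theorem rear_mono (ht : t + 1 < H) : rear H g t ≤ rear H g (t + 1) := by
  have := (rear_le_iff (g := g) ht).mp le_rfl
  exact (rear_le_iff (by omega)).mpr (by omega)

theorem le_rear (hg' : ∀ s, s + 1 < H → g' s ≤ g' (s + 1)) (h : ∀ s < H, g' s ≤ g s)
    (ht : t < H) : g' t ≤ rear H g t := by
  have h1 := (rear_le_iff (g := g) ht).mp le_rfl
  refine (lt_cnt_iff hg' ht).mp (h1.trans_le (card_le_card fun s hs => ?_))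
  obtain ⟨h2, h3⟩ := mem_filter.mp hs
  exact mem_filter.mpr ⟨h2, (h s (mem_range.mp h2)).trans h3⟩

theorem rear_incl (hH : H' ≤ H) (h : ∀ s < H', g s ≤ g' s + x) (ht : t < H') :
    rear H g t ≤ rear H' g' t + x := by
  have h1 := (rear_le_iff (g := g') ht).mp le_rfl
  refine (rear_le_iff (by omega)).mpr (h1.trans_le (card_le_card fun s hs => ?_))
  obtain ⟨h2, h3⟩ := mem_filter.mp hs
  rw [mem_range] at h2
  exact mem_filter.mpr ⟨mem_range.mpr (by omega), by linarith [h s h2]⟩

theorem rear_double (h : ∀ s < H, g s ≤ g' s + x ∧ g (s + 1) ≤ g' s + x) (ht : t < H) :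
    rear (H + 1) g (t + 1) ≤ rear H g' t + x := by
  have h1 := (rear_le_iff (g := g') ht).mp le_rfl
  refine (rear_le_iff (by omega)).mpr ?_
  generalize rear H g' t = Y at h1
  rw [cnt] at h1 ⊢
  have hne : ((range H).filter fun s => g' s ≤ Y).Nonempty := card_pos.mp (by omega)
  have hmin := min'_mem _ hne
  have h2 : insert (min' _ hne) (((range H).filter fun s => g' s ≤ Y).image (· + 1)) ⊆
      (range (H + 1)).filter fun s => g s ≤ Y + x := by
    intro s hs
    rcases mem_insert.mp hs with h3 | h3
    · obtain ⟨h4, h5⟩ := mem_filter.mp hmin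
      rw [mem_range] at h4
      rw [h3]
      exact mem_filter.mpr ⟨mem_range.mpr (by omega), by linarith [(h _ h4).1]⟩
    · obtain ⟨u, hu, rfl⟩ := mem_image.mp h3
      obtain ⟨h4, h5⟩ := mem_filter.mp hu
      rw [mem_range] at h4
      exact mem_filter.mpr ⟨mem_range.mpr (by omega), by linarith [(h _ h4).2]⟩
  have h3 := card_le_card h2
  rw [card_insert_of_notMem, card_image_of_injective _ (add_left_injective 1)] at h3
  · omega
  · intro h4
    obtain ⟨u, hu, h5⟩ := mem_image.mp h4
    have := min'_le _ u hu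
    omega

theorem rear_shift (h : ∀ s < H, g' s ≤ g (s + 1) + x) (ht : t < H) :
    rear H g' t ≤ rear (H + 1) g (t + 1) + x := by
  have h1 := (rear_le_iff (H := H + 1) (g := g) (t := t + 1) (by omega)).mp le_rfl
  refine (rear_le_iff ht).mpr ?_
  generalize rear (H + 1) g (t + 1) = Y at h1
  rw [cnt] at h1 ⊢
  have h2 : (((range (H + 1)).filter fun s => g s ≤ Y).erase 0).card ≤
      ((range H).filter fun s => g' s ≤ Y + x).card := by
    refine card_le_card_of_injOn (· - 1) (fun s hs => ?_) (fun s hs s' hs' h3 => ?_)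
    · obtain ⟨h3, h4⟩ := mem_erase.mp (mem_coe.mp hs)
      obtain ⟨h5, h6⟩ := mem_filter.mp h4
      rw [mem_range] at h5
      have h7 := h (s - 1) (by omega)
      rw [show s - 1 + 1 = s by omega] at h7
      exact mem_coe.mpr (mem_filter.mpr ⟨mem_range.mpr (show s - 1 < H by omega), by linarith⟩)
    · have h4 := (mem_erase.mp (mem_coe.mp hs)).1
      have h5 := (mem_erase.mp (mem_coe.mp hs')).1
      simp only at h3
      omega
  have h3 := pred_card_le_card_erase (s := (range (H + 1)).filter fun s => g s ≤ Y) (a := 0)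
  omega

theorem rear_gap (h : ∀ s < H, g' s ≤ g (s + 1) + x) (h' : ∀ s ≤ t, g s + x ≤ X → g' s ≤ X)
    (ht : t < H) (hX : rear (H + 1) g t + x ≤ X) : rear H g' t ≤ X := by
  have h1 := (rear_le_iff (H := H + 1) (g := g) (t := t) (X := X - x) (by omega)).mp
    (by linarith)
  refine (rear_le_iff ht).mpr ?_
  rw [cnt] at h1 ⊢
  by_cases hall : ∀ s ≤ t, g s + x ≤ X
  · have : (range (t + 1)).card ≤ ((range H).filter fun s => g' s ≤ X).card :=
      card_le_card fun s hs => by
        rw [mem_range] at hs
        exact mem_filter.mpr ⟨mem_range.mpr (by omega), h' s (by omega) (hall s (by omega))⟩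
    rw [card_range] at this
    omega
  · push Not at hall
    obtain ⟨j, hj, hj'⟩ := hall
    refine h1.trans_le (card_le_card_of_injOn (fun s => if s < j then s else s - 1)
      (fun s hs => ?_) (fun s hs s' hs' h3 => ?_))
    · obtain ⟨h5, h6⟩ := mem_filter.mp (mem_coe.mp hs)
      rw [mem_range] at h5
      have hne : s ≠ j := by rintro rfl; linarith
      refine mem_coe.mpr (mem_filter.mpr ?_)
      by_cases h7 : s < j
      · simp only [if_pos h7]
        exact ⟨mem_range.mpr (by omega), h' s (by omega) (by linarith)⟩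
      · simp only [if_neg h7]
        have h8 := h (s - 1) (by omega)
        rw [show s - 1 + 1 = s by omega] at h8
        exact ⟨mem_range.mpr (by omega), by linarith⟩
    · have h4 : s ≠ j := by
        rintro rfl
        linarith [(mem_filter.mp (mem_coe.mp hs)).2]
      have h5 : s' ≠ j := by
        rintro rfl
        linarith [(mem_filter.mp (mem_coe.mp hs')).2]
      simp only at h3
      split_ifs at h3 <;> omega

theorem rear_step (h : ∀ s, s + 1 < H → g (s + 1) ≤ g s + 1 ∧ g s ≤ g (s + 1) + 1)
    (ht : t + 1 < H) : rear H g (t + 1) ≤ rear H g t + 1 := by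
  have h1 := (rear_le_iff (g := g) (t := t) (H := H) (by omega)).mp le_rfl
  refine (rear_le_iff ht).mpr ?_
  generalize rear H g t = Y at h1
  rw [cnt] at h1 ⊢
  by_contra h2
  have hsub : ((range H).filter fun s => g s ≤ Y) ⊆ (range H).filter fun s => g s ≤ Y + 1 :=
    fun s hs => mem_filter.mpr ⟨(mem_filter.mp hs).1, by linarith [(mem_filter.mp hs).2]⟩
  have heq := eq_of_subset_of_card_le hsub (by omega)
  have h3 : ∀ s < H, g s ≤ Y + 1 → g s ≤ Y := fun s hs h4 =>
    (mem_filter.mp (heq ▸ mem_filter.mpr ⟨mem_range.mpr hs, h4⟩ :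
      s ∈ (range H).filter fun s => g s ≤ Y)).2
  have h4 : ∀ s < H, (g s ≤ Y ↔ g 0 ≤ Y) := by
    intro s
    induction s with
    | zero => intro _; exact Iff.rfl
    | succ s ih =>
      intro hs
      rw [← ih (by omega)]
      exact ⟨fun h5 => h3 s (by omega) (by linarith [(h s hs).2]),
        fun h5 => h3 _ hs (by linarith [(h s hs).1])⟩
  obtain ⟨s0, hs0⟩ := card_pos.mp (show 0 < ((range H).filter fun s => g s ≤ Y).card by omega)
  have h5 := (h4 s0 (mem_range.mp (mem_filter.mp hs0).1)).mp (mem_filter.mp hs0).2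
  have h6 : (range H).card ≤ ((range H).filter fun s => g s ≤ Y + 1).card :=
    card_le_card fun s hs =>
      mem_filter.mpr ⟨hs, by linarith [(h4 s (mem_range.mp hs)).mpr h5]⟩
  rw [card_range] at h6
  omega

end Pool.Agent.Lib.BallU
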