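import Pool.Agent.Lib.MP_d7b9cc_gt.G2
import Pool.Agent.Lib.MP_d7b9cc_gt.U.Defs

/-! The three kinds of symplectic moves. -/

open Finset Function
open scoped ContDiff

namespace Pool.Agent.Lib.BallU

open Pool.Agent.Lib.BallT6

variable {N : ℕ}

/-- Action coordinates: real parts below `k`, moments from `k` on. -/
noncomputable def act (N k : ℕ) (z : ℕ → ℂ) (i : Fin (N + 1)) : ℝ :=
  if (i : ℕ) < k then (z i).re else mu (z i)

/-- The angle shift of coordinate `l` under the flow of `im (z k) * s`. -/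
noncomputable def ang (k : Fin (N + 1)) (s : (Fin (N + 1) → ℝ) → ℝ) (z : ℕ → ℂ) (l : ℕ) : ℝ :=
  if h : l < N + 1 then
    (z k).im * fderiv ℝ s (update (act N k z) k 0) (Pi.single ⟨l, h⟩ 1) else 0

/-- The time one flow of `im (z k) * s`. -/
noncomputable def sh (k : Fin (N + 1)) (s : (Fin (N + 1) → ℝ) → ℝ) (z : ℕ → ℂ) (l : ℕ) : ℂ :=
  if l < k then z l - (ang k s z l : ℂ) * Complex.I
  else if l = k then z l + (s (update (act N k z) k 0) : ℂ)
  else ph (2 * Real.pi * (-1 * ang k s z l)) * z l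

/-- A planar map in coordinate `k`. -/
noncomputable def hd (f : ℂ → ℂ) (k : ℕ) (z : ℕ → ℂ) : ℕ → ℂ := update z k (f (z k))

/-- The last move. -/
noncomputable def fin (z : ℕ → ℂ) : ℕ → ℂ := cons (z 0 + Complex.I / 2) fun i => pol (z (i + 1))

variable {E : Type} [NormedAddCommGroup E] [NormedSpace ℝ E]

theorem good_hd {f : ℂ → ℂ} (hf : Planar f) (n k : ℕ) (z : ℕ → ℂ) : Good E n (hd f k) z := by
  intro Z p _ hs
  refine ⟨fun l hl => ?_, fun v w => sum_congr rfl fun l hl => ?_⟩
  · by_cases h : l = k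
    · subst h
      simp only [hd, update_self]
      exact hf.smooth.contDiffAt.comp p (hs l hl)
    · simp only [hd, update_of_ne h]
      exact hs l hl
  · by_cases h : l = k
    · subst h
      simp only [hd, update_self]
      exact pb_comp hf.smooth.contDiffAt (hf.symp _) (hs l (mem_range.mp hl)) v w
    · simp only [hd, update_of_ne h]

theorem clm_sum {n : ℕ} (φ : (Fin n → ℝ) →L[ℝ] ℝ) (a : Fin n → ℝ) :
    φ a = ∑ i, φ (Pi.single i 1) * a i := by
  conv_lhs => rw [← Finset.univ_sum_single a, map_sum]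
  refine sum_congr rfl fun i _ => ?_
  rw [show (Pi.single i (a i) : Fin n → ℝ) = a i • Pi.single i 1 by
    rw [← Pi.single_smul, smul_eq_mul, mul_one], map_smul, smul_eq_mul, mul_comm]

theorem good_sh (k : Fin (N + 1)) {s : (Fin (N + 1) → ℝ) → ℝ} (hs : ContDiff ℝ ∞ s)
    (z : ℕ → ℂ) : Good E (N + 1) (sh k s) z := by
  intro Z p _ hZ
  obtain ⟨A, hA⟩ : ∃ A : E → Fin (N + 1) → ℝ, A = fun x => update (act N k (Z x)) k 0 := ⟨_, rfl⟩
  have a1 : ∀ i : Fin (N + 1), (i : ℕ) < k → (fun x => A x i) = fun x => (Z x i).re := by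
    intro i hi
    funext x
    rw [hA]
    simp only
    rw [update_of_ne (fun e => by rw [e] at hi; omega), act, if_pos hi]
  have a2 : (fun x => A x k) = fun _ => 0 := by
    funext x
    rw [hA]
    simp only [update_self]
  have a3 : ∀ i : Fin (N + 1), (k : ℕ) < i → (fun x => A x i) = fun x => mu (Z x i) := by
    intro i hi
    funext x
    rw [hA]
    simp only
    rw [update_of_ne (fun e => by rw [e] at hi; omega), act, if_neg (by omega)]
  have cAi : ∀ i : Fin (N + 1), ContDiffAt ℝ ∞ (fun x => A x i) p := by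
    intro i
    rcases lt_trichotomy (i : ℕ) k with h | h | h
    · rw [a1 i h]
      exact cd_re (hZ i i.2)
    · rw [Fin.ext h, a2]
      exact contDiffAt_const
    · rw [a3 i h]
      exact cd_mu (hZ i i.2)
  have cA : ContDiffAt ℝ ∞ A p := contDiffAt_pi.mpr cAi
  have hs' : ContDiff ℝ ∞ (fderiv ℝ s) := hs.fderiv_right (by simp)
  have cS : ContDiffAt ℝ ∞ (fun x => s (A x)) p := hs.contDiffAt.comp p cA
  have cD : ∀ i : Fin (N + 1),
      ContDiffAt ℝ ∞ (fun x => fderiv ℝ s (A x) (Pi.single i 1)) p := fun i =>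
    (hs'.contDiffAt.comp p cA).clm_apply contDiffAt_const
  have cY : ContDiffAt ℝ ∞ (fun x => (Z x k).im) p := cd_im (hZ k k.2)
  have eθ : ∀ i : Fin (N + 1), (fun x => ang k s (Z x) i) =
      fun x => (Z x k).im * fderiv ℝ s (A x) (Pi.single i 1) := by
    intro i
    funext x
    rw [ang, dif_pos i.2, hA]
  have cθ : ∀ i : Fin (N + 1), ContDiffAt ℝ ∞ (fun x => ang k s (Z x) i) p := fun i => by
    rw [eθ]
    exact cY.mul (cD i)
  have f1 : ∀ i : Fin (N + 1), (i : ℕ) < k → (fun x => sh k s (Z x) i) =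
      fun x => Z x i - (ang k s (Z x) i : ℂ) * Complex.I := fun i hi => by
    funext x
    rw [sh, if_pos hi]
  have f2 : (fun x => sh k s (Z x) k) = fun x => Z x k + (s (A x) : ℂ) := by
    funext x
    rw [sh, if_neg (lt_irrefl _), if_pos rfl, hA]
  have f3 : ∀ i : Fin (N + 1), (k : ℕ) < i → (fun x => sh k s (Z x) i) =
      fun x => ph (2 * Real.pi * (-1 * ang k s (Z x) i)) * Z x i := fun i hi => by
    funext x
    rw [sh, if_neg (by omega), if_neg (by omega)]
  have cF : ∀ i : Fin (N + 1), ContDiffAt ℝ ∞ (fun x => sh k s (Z x) i) p := by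
    intro i
    rcases lt_trichotomy (i : ℕ) k with h | h | h
    · rw [f1 i h]
      exact (hZ i i.2).sub ((cd_ofReal (cθ i)).mul contDiffAt_const)
    · rw [Fin.ext h, f2]
      exact (hZ k k.2).add (cd_ofReal cS)
    · rw [f3 i h]
      exact (cd_ph (contDiffAt_const.mul (contDiffAt_const.mul (cθ i)))).mul (hZ i i.2)
  refine ⟨fun l hl => cF ⟨l, hl⟩, fun v w => ?_⟩
  have dA : ∀ (i : Fin (N + 1)) u, dv (fun x => A x i) p u = fderiv ℝ A p u i := fun i u => by
    have := ((ContinuousLinearMap.proj (R := ℝ) (φ := fun _ : Fin (N + 1) => ℝ)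
      i).hasFDerivAt.comp p (ContDiffAt.da cA).hasFDerivAt).fderiv
    exact congrArg (fun L : E →L[ℝ] ℝ => L u) this
  have dS : ∀ u, dv (fun x => s (A x)) p u =
      ∑ i, fderiv ℝ s (A p) (Pi.single i 1) * fderiv ℝ A p u i := fun u => by
    rw [← clm_sum]
    have := fderiv_comp p (ContDiffAt.da hs.contDiffAt) (ContDiffAt.da cA)
    exact congrArg (fun L : E →L[ℝ] ℝ => L u) this
  have dD : ∀ (i : Fin (N + 1)) u, dv (fun x => fderiv ℝ s (A x) (Pi.single i 1)) p u =
      fderiv ℝ (fderiv ℝ s) (A p) (fderiv ℝ A p u) (Pi.single i 1) := fun i u => by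
    have h1 := (ContDiffAt.da hs'.contDiffAt).hasFDerivAt.comp p (ContDiffAt.da cA).hasFDerivAt
    have h2 := ((ContinuousLinearMap.apply ℝ ℝ (Pi.single i (1 : ℝ) : Fin (N + 1) → ℝ)
      ).hasFDerivAt.comp p h1).fderiv
    exact congrArg (fun L : E →L[ℝ] ℝ => L u) h2
  have sym := (hs.contDiffAt (x := A p)).isSymmSndFDerivAt
    (by rw [minSmoothness_of_isRCLikeNormedField]; exact WithTop.coe_le_coe.mpr le_top)
    (fderiv ℝ A p v) (fderiv ℝ A p w)
  have dθ : ∀ u u', ∑ i : Fin (N + 1), dv (fun x => ang k s (Z x) i) p u * fderiv ℝ A p u' i =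
      (Z p k).im * fderiv ℝ (fderiv ℝ s) (A p) (fderiv ℝ A p u) (fderiv ℝ A p u') +
        dv (fun x => (Z x k).im) p u * dv (fun x => s (A x)) p u' := fun u u' => by
    rw [clm_sum (fderiv ℝ (fderiv ℝ s) (A p) (fderiv ℝ A p u)), dS, mul_sum, mul_sum,
      ← sum_add_distrib]
    refine sum_congr rfl fun i _ => ?_
    rw [eθ, dv_mul cY (cD i), dD]
    ring
  have key : ∀ i : Fin (N + 1), pb (fun x => sh k s (Z x) i) p v w = pb (fun x => Z x i) p v w +
      (dv (fun x => ang k s (Z x) i) p v * fderiv ℝ A p w i -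
        dv (fun x => ang k s (Z x) i) p w * fderiv ℝ A p v i) +
      if i = k then dv (fun x => s (A x)) p v * dv (fun x => (Z x k).im) p w -
        dv (fun x => (Z x k).im) p v * dv (fun x => s (A x)) p w else 0 := by
    intro i
    rcases lt_trichotomy (i : ℕ) k with h | h | h
    · rw [if_neg (fun e => by rw [e] at h; omega), pb_eq (cF i), pb_eq (hZ i i.2), ← dA, ← dA,
        a1 i h]
      have r : (fun x => (sh k s (Z x) i).re) = fun x => (Z x i).re := by
        funext x
        rw [sh, if_pos h]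
        simp
      have m : (fun x => (sh k s (Z x) i).im) = fun x => (Z x i).im - ang k s (Z x) i := by
        funext x
        rw [sh, if_pos h]
        simp
      rw [r, m, dv_sub (cd_im (hZ i i.2)) (cθ i), dv_sub (cd_im (hZ i i.2)) (cθ i)]
      ring
    · obtain rfl : i = k := Fin.ext h
      rw [if_pos rfl, pb_eq (cF i), pb_eq (hZ i i.2), ← dA, ← dA, a2, dv_const, dv_const]
      have r : (fun x => (sh i s (Z x) i).re) = fun x => (Z x i).re + s (A x) := by
        funext x
        rw [congrFun f2 x]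
        simp
      have m : (fun x => (sh i s (Z x) i).im) = fun x => (Z x i).im := by
        funext x
        rw [congrFun f2 x]
        simp
      rw [r, m, dv_add (cd_re (hZ i i.2)) cS, dv_add (cd_re (hZ i i.2)) cS]
      ring
    · rw [if_neg (fun e => by rw [e] at h; omega), f3 i h,
        pb_phase (contDiffAt_const.mul (cθ i)) (hZ i i.2), ← dA, ← dA, a3 i h,
        dv_const_mul _ (cθ i), dv_const_mul _ (cθ i)]
      ring
  unfold PB
  rw [sum_range, sum_range, sum_congr rfl fun i _ => key i, sum_add_distrib, sum_add_distrib,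
    sum_sub_distrib, dθ, dθ, sum_ite_eq' univ k, if_pos (mem_univ k), sym]
  ring

theorem good_fin {z : ℕ → ℂ} (hz : ∀ i < N, 0 < (z (i + 1)).re) : Good E (N + 1) fin z := by
  intro Z p hp hs
  obtain ⟨h0, h1⟩ := sm_succ.mp hs
  have hp' : ∀ i < N, 0 < (Z p (i + 1)).re := fun i hi => by
    rw [hp]
    exact hz i hi
  refine ⟨sm_succ.mpr ⟨h0.add contDiffAt_const,
    fun i hi => ContDiffAt.comp (g := pol) (f := fun x => Z x (i + 1)) p
      (contDiffAt_pol (hp' i hi)).1 (h1 i hi)⟩, fun v w => ?_⟩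
  rw [PB_succ, PB_succ]
  simp only [fin, cons_zero, cons_succ]
  rw [sum_congr rfl fun i hi => pb_comp (F := fun x => Z x (i + 1))
    (contDiffAt_pol (hp' i (mem_range.mp hi))).1 (contDiffAt_pol (hp' i (mem_range.mp hi))).2
    (h1 i (mem_range.mp hi)) v w]
  unfold pb
  rw [fderiv_add_const]

end Pool.Agent.Lib.BallU
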