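import Pool.Agent.Lib.MP_d7b9cc_gt.U.Rear

/-! Sums over the discrete simplex. -/

open Finset Function

namespace Pool.Agent.Lib.BallU

variable {N : ℕ}

theorem vol_sum_lines (T : ℕ) (k : Fin N) (f : (Fin N → ℕ) → ℝ) :
    ∑ c ∈ dom N T, f c = ∑ u ∈ (dom N T).filter (fun u => u k = 0),
      ∑ t ∈ range (len T u k), f (update u k t) := by
  rw [sum_sigma']
  refine sum_nbij' (fun c => ⟨update c k 0, c k⟩) (fun p => update p.1 k p.2) ?_ ?_ ?_ ?_ ?_
  · intro c hc
    have h1 := mem_dom.1 hc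
    have h2 := tot_eq c k
    simp only [mem_sigma, mem_filter, mem_dom, mem_range, update_self, and_true, len_update]
    refine ⟨by omega, lt_len.2 ?_⟩
    rwa [update_eq_self]
  · intro p hp
    simp only [mem_sigma, mem_filter, mem_range] at hp
    exact mem_dom.2 (lt_len.1 hp.2)
  · intro c _
    simp
  · rintro ⟨u, t⟩ hp
    simp only [mem_sigma, mem_filter, mem_range] at hp
    have h : update u k 0 = u := by rw [← hp.1.2, update_eq_self]
    simp [h]
  · intro c _
    simp

theorem sum_RR (T : ℕ) (k : Fin N) (O : (Fin N → ℕ) → ℝ) :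
    ∑ c ∈ dom N T, RR T k O c = ∑ c ∈ dom N T, O c := by
  rw [vol_sum_lines T k (RR T k O), vol_sum_lines T k O]
  refine sum_congr rfl fun u _ => ?_
  simp only [RR_update]
  exact sum_rear _ _

theorem vol_tot_cons (t : ℕ) (u : Fin N → ℕ) :
    tot (Fin.cons t u : Fin (N + 1) → ℕ) = t + tot u := by
  simp [tot, Fin.sum_univ_succ]

theorem vol_card_succ (N T : ℕ) : (dom (N + 1) T).card = ∑ u ∈ dom N T, (T - tot u) := by
  have h : ∑ u ∈ dom N T, (T - tot u) = ((dom N T).sigma fun u => range (T - tot u)).card := by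
    simp [card_sigma]
  rw [h]
  refine card_nbij' (fun c => ⟨Fin.tail c, c 0⟩) (fun p => Fin.cons p.2 p.1) ?_ ?_ ?_ ?_
  · intro c hc
    have h1 := mem_dom.1 (mem_coe.1 hc)
    have h2 := vol_tot_cons (c 0) (Fin.tail c)
    rw [Fin.cons_self_tail] at h2
    simp only [mem_coe, mem_sigma, mem_dom, mem_range]
    omega
  · intro p hp
    simp only [mem_coe, mem_sigma, mem_dom, mem_range] at hp ⊢
    rw [vol_tot_cons]
    omega
  · intro c _
    simp
  · rintro ⟨u, t⟩ _
    simp

theorem vol_dom_zero (N : ℕ) : dom N 0 = ∅ :=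
  eq_empty_of_forall_notMem fun _ hc => absurd (mem_dom.1 hc) (Nat.not_lt_zero _)

theorem vol_pascal (N T : ℕ) :
    (dom (N + 1) (T + 1)).card = (dom (N + 1) T).card + (dom N (T + 1)).card := by
  have h1 : ∑ u ∈ dom N T, (T - tot u) = ∑ u ∈ dom N (T + 1), (T - tot u) := by
    refine sum_subset (fun u hu => mem_dom.2 (Nat.lt_succ_of_lt (mem_dom.1 hu))) fun u _ hu => ?_
    rw [mem_dom] at hu
    omega
  rw [vol_card_succ, vol_card_succ, h1, card_eq_sum_ones (dom N (T + 1)), ← sum_add_distrib]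
  refine sum_congr rfl fun u hu => ?_
  have := mem_dom.1 hu
  omega

theorem vol_card (N : ℕ) : ∀ T : ℕ, (dom N (T + 1)).card = (T + N).choose N := by
  induction N with
  | zero =>
    intro T
    have h : dom 0 (T + 1) = univ := eq_univ_of_forall fun c => mem_dom.2 (by simp [tot])
    simp [h]
  | succ N ih =>
    intro T
    induction T with
    | zero => simp [vol_pascal, vol_dom_zero, ih]
    | succ T ihT =>
      rw [vol_pascal, ihT, ih, show T + 1 + (N + 1) = T + (N + 1) + 1 by ring,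
        Nat.choose_succ_succ', show T + 1 + N = T + (N + 1) by ring, add_comm]

theorem pow_le_card_dom (N T : ℕ) (hT : 0 < T) : T ^ N ≤ N.factorial * (dom N T).card := by
  obtain ⟨S, rfl⟩ : ∃ S, T = S + 1 := ⟨T - 1, by omega⟩
  rw [vol_card, ← Nat.ascFactorial_eq_factorial_mul_choose]
  exact Nat.pow_succ_le_ascFactorial _ _

theorem sum_tent_le (N T W : ℕ) :
    (N + 1).factorial * ∑ c ∈ dom N T, (W - tot c) ≤ (W + N) ^ (N + 1) := by
  have h1 : ∑ c ∈ dom N T, (W - tot c) ≤ ∑ c ∈ dom N W, (W - tot c) :=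
    sum_le_sum_of_ne_zero fun c _ hc => mem_dom.2 (by omega)
  refine (Nat.mul_le_mul_left _ h1).trans ?_
  rw [← vol_card_succ]
  rcases W with _ | S
  · simp [vol_dom_zero]
  · rw [vol_card, ← Nat.descFactorial_eq_factorial_mul_choose,
      show S + 1 + N = S + (N + 1) by ring]
    exact Nat.descFactorial_le_pow _ _

end Pool.Agent.Lib.BallU
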