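import Pool.Agent.Lib.MP_d7b9cc_gt.U.Inv
import Pool.Agent.Lib.MP_d7b9cc_gt.U.Vol

/-! A subsolution exists as soon as the volume fits. -/

open Finset Function

namespace Pool.Agent.Lib.BallU

variable {N T : ℕ}

theorem OO_le (W : ℕ) {L L' : (Fin N → ℕ) → ℝ} {x : ℝ} (h : ∀ c, tot c < T → L c ≤ L' c + x)
    (k : ℕ) : ∀ c, tot c < T → OO T W L k c ≤ OO T W L' k c + x := by
  induction k with
  | zero =>
    intro c hc
    have := h c hc
    simp only [OO]
    linarith
  | succ k ih =>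
    intro c hc
    by_cases hk : k < N
    · rw [OO, OO, dif_pos hk, dif_pos hk, RR, RR]
      refine rear_incl le_rfl (fun s hs => ih _ (lt_len.1 hs)) (lt_len.2 ?_)
      rwa [update_eq_self]
    · rw [OO, OO, dif_neg hk, dif_neg hk]
      exact ih c hc

theorem Adm.osc {L : (Fin N → ℕ) → ℝ} (h : Adm T 0 L) {c : Fin N → ℕ} (hc : tot c < T) :
    L 0 ≤ L c ∧ L c ≤ L 0 + tot c := by
  obtain ⟨n, hn⟩ : ∃ n, tot c = n := ⟨_, rfl⟩
  induction n generalizing c with
  | zero =>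
    have h0 : c = 0 := by
      funext i
      have := tot_eq c i
      simp only [Pi.zero_apply]
      omega
    subst h0
    rw [hn]
    simp
  | succ n ih =>
    obtain ⟨i, hi⟩ : ∃ i, c i ≠ 0 := by
      by_contra hne
      have h0 : tot c = 0 := sum_eq_zero fun i _ => by
        by_contra hi
        exact hne ⟨i, hi⟩
      omega
    have hu : up (update c i (c i - 1)) i = c := by
      rw [up_update_same, Nat.sub_add_cancel (Nat.pos_of_ne_zero hi), update_eq_self]
    have ht : tot (update c i (c i - 1)) = n := by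
      have := tot_up (update c i (c i - 1)) i
      rw [hu] at this
      omega
    have h1 := h.lo (update c i (c i - 1)) i (by omega)
    have h2 := h.hi (update c i (c i - 1)) i (by omega)
    obtain ⟨h3, h4⟩ := ih (c := update c i (c i - 1)) (by omega) ht
    rw [hu] at h1 h2
    rw [ht] at h4
    rw [hn]
    push_cast
    constructor <;> linarith

theorem Adm.min {L L' : (Fin N → ℕ) → ℝ} (h : Adm T 0 L) (h' : Adm T 0 L') :
    Adm T 0 fun c => min (L c) (L' c) := by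
  refine ⟨fun c i hc => ?_, fun c i hc => ?_, fun c i i' hc hi => ?_⟩
  · have h1 := h.lo c i hc
    have h2 := h'.lo c i hc
    rw [add_zero] at h1 h2 ⊢
    exact min_le_min h1 h2
  · rw [← min_add_add_right]
    exact min_le_min (h.hi c i hc) (h'.hi c i hc)
  · exact min_le_min (h.ord c i i' hc hi) (h'.ord c i i' hc hi)

theorem Adm.sub_const {L : (Fin N → ℕ) → ℝ} (h : Adm T 0 L) (B : ℝ) :
    Adm T 0 fun c => L c - B :=
  ⟨fun c i hc => by linarith [h.lo c i hc], fun c i hc => by linarith [h.hi c i hc],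
    fun c i i' hc hi => by linarith [h.ord c i i' hc hi]⟩

theorem sum_OO (W : ℕ) (L : (Fin N → ℕ) → ℝ) (k : ℕ) :
    ∑ c ∈ dom N T, OO T W L k c =
      ∑ c ∈ dom N T, L c + ((∑ c ∈ dom N T, (W - tot c) : ℕ) : ℝ) := by
  induction k with
  | zero => simp only [OO, sum_add_distrib, Nat.cast_sum]
  | succ k ih =>
    by_cases hk : k < N
    · rw [OO, dif_pos hk, sum_RR, ih]
    · rw [OO, dif_neg hk, ih]

/-- The iterates of the return map, started at zero. -/
noncomputable def iter (N T W : ℕ) (B : ℝ) : ℕ → (Fin N → ℕ) → ℝ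
  | 0 => fun _ => 0
  | k + 1 => fun c => OO T W (iter N T W B k) N c - B

theorem adm_iter (N T W : ℕ) (B : ℝ) (k : ℕ) : Adm T 0 (iter N T W B k) := by
  induction k with
  | zero => exact ⟨fun c i _ => by simp [iter], fun c i _ => by simp [iter],
      fun c i i' _ _ => by simp [iter]⟩
  | succ k ih => exact (inv_OO ih W N le_rfl).adm.sub_const B

theorem sum_iter (N T W : ℕ) (B : ℝ) (k : ℕ) :
    ∑ c ∈ dom N T, iter N T W B k c =
      -(k * (B * (dom N T).card - ((∑ c ∈ dom N T, (W - tot c) : ℕ) : ℝ))) := by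
  induction k with
  | zero => simp [iter]
  | succ k ih =>
    simp only [iter]
    rw [sum_sub_distrib, sum_OO, ih, sum_const, nsmul_eq_mul]
    push_cast
    ring

theorem vol_lt (N T W : ℕ) (hT : 0 < T) {B : ℝ}
    (hv : ((W : ℝ) + N) ^ (N + 1) < (N + 1) * B * (T : ℝ) ^ N) :
    ((∑ c ∈ dom N T, (W - tot c) : ℕ) : ℝ) < B * (dom N T).card := by
  have h1 : (((N + 1).factorial : ℕ) : ℝ) * ((∑ c ∈ dom N T, (W - tot c) : ℕ) : ℝ) ≤
      ((W : ℝ) + N) ^ (N + 1) := by exact_mod_cast sum_tent_le N T W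
  have h2 : (T : ℝ) ^ N ≤ (N.factorial : ℝ) * (dom N T).card := by
    exact_mod_cast pow_le_card_dom N T hT
  have hN : (0 : ℝ) < N + 1 := by positivity
  have hp : (0 : ℝ) < (T : ℝ) ^ N := by positivity
  have hB : (0 : ℝ) < (N + 1) * B := by
    have h0 : (0 : ℝ) ≤ ((W : ℝ) + N) ^ (N + 1) := by positivity
    exact (mul_pos_iff_of_pos_right hp).1 (h0.trans_lt hv)
  have h3 := mul_le_mul_of_nonneg_left h2 hB.le
  have h4 : (((N + 1).factorial : ℕ) : ℝ) = (N + 1) * (N.factorial : ℝ) := by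
    rw [Nat.factorial_succ]
    push_cast
    ring
  have h5 : (0 : ℝ) < (((N + 1).factorial : ℕ) : ℝ) := by exact_mod_cast Nat.factorial_pos _
  refine lt_of_mul_lt_mul_left ?_ h5.le
  calc _ ≤ _ := h1
    _ < _ := hv
    _ ≤ _ := h3
    _ = _ := by rw [h4]; ring

theorem exists_iter_nonpos (N T W : ℕ) (hT : 0 < T) {B : ℝ}
    (hv : ((W : ℝ) + N) ^ (N + 1) < (N + 1) * B * (T : ℝ) ^ N) :
    ∃ k, ∀ c, tot c < T → iter N T W B (k + 1) c ≤ 0 := by
  have hγ := sub_pos.2 (vol_lt N T W hT hv)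
  obtain ⟨γ, hγe⟩ : ∃ γ : ℝ,
      γ = B * (dom N T).card - ((∑ c ∈ dom N T, (W - tot c) : ℕ) : ℝ) := ⟨_, rfl⟩
  rw [← hγe] at hγ
  obtain ⟨k, hk⟩ := exists_nat_ge ((T : ℝ) * (dom N T).card / γ)
  refine ⟨k, fun c hc => ?_⟩
  have hs := sum_iter N T W B (k + 1)
  rw [← hγe] at hs
  have hcard : (0 : ℝ) < (dom N T).card := by
    exact_mod_cast card_pos.2 ⟨c, mem_dom.2 hc⟩
  have h1 : ((dom N T).card : ℝ) * iter N T W B (k + 1) 0 ≤
      ∑ c ∈ dom N T, iter N T W B (k + 1) c := by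
    rw [← nsmul_eq_mul]
    exact card_nsmul_le_sum _ _ _ fun c hc => ((adm_iter N T W B (k + 1)).osc (mem_dom.1 hc)).1
  have h2 := ((adm_iter N T W B (k + 1)).osc hc).2
  have h3 : (tot c : ℝ) ≤ T := by exact_mod_cast hc.le
  rw [div_le_iff₀ hγ] at hk
  have h4 : ((dom N T).card : ℝ) * iter N T W B (k + 1) 0 ≤ ((dom N T).card : ℝ) * (-T) := by
    push_cast at hs
    nlinarith
  have h5 := le_of_mul_le_mul_left h4 hcard
  linarith

theorem exists_inf (I : ℕ → (Fin N → ℕ) → ℝ) (hI : ∀ k, Adm T 0 (I k)) (k : ℕ) :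
    ∃ J : (Fin N → ℕ) → ℝ, Adm T 0 J ∧ (∀ j ≤ k, ∀ c, J c ≤ I j c) ∧
      ∀ c y, (∀ j ≤ k, y ≤ I j c) → y ≤ J c := by
  induction k with
  | zero =>
    refine ⟨I 0, hI 0, fun j hj c => ?_, fun c y hy => hy 0 le_rfl⟩
    rw [Nat.le_zero.1 hj]
  | succ k ih =>
    obtain ⟨J, h1, h2, h3⟩ := ih
    refine ⟨fun c => min (J c) (I (k + 1) c), h1.min (hI _), fun j hj c => ?_, fun c y hy => ?_⟩
    · rcases hj.eq_or_lt with rfl | hj
      · exact min_le_right _ _
      · exact (min_le_left _ _).trans (h2 j (Nat.lt_succ_iff.1 hj) c)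
    · exact le_min (h3 c y fun j hj => hy j (hj.trans (Nat.le_succ k))) (hy _ le_rfl)

theorem exists_sub0 (N T W : ℕ) (hT : 0 < T) {B : ℝ}
    (hv : ((W : ℝ) + N) ^ (N + 1) < (N + 1) * B * (T : ℝ) ^ N) :
    ∃ L : (Fin N → ℕ) → ℝ, Adm T 0 L ∧ ∀ c, tot c < T → OO T W L N c ≤ L c + B := by
  obtain ⟨k, hk⟩ := exists_iter_nonpos N T W hT hv
  obtain ⟨J, h1, h2, h3⟩ := exists_inf (iter N T W B) (adm_iter N T W B) k
  refine ⟨J, h1, fun c hc => ?_⟩
  have key : ∀ j ≤ k, OO T W J N c - B ≤ iter N T W B (j + 1) c := by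
    intro j hj
    have := OO_le W (x := 0) (L := J) (L' := iter N T W B j)
      (fun c _ => by simpa using h2 j hj c) N c hc
    simp only [iter]
    linarith
  have : OO T W J N c - B ≤ J c := by
    refine h3 c _ fun j hj => ?_
    cases j with
    | zero => exact (key k le_rfl).trans (hk c hc)
    | succ j => exact key j (Nat.le_of_succ_le hj)
  linarith

theorem exists_sub (N T W : ℕ) (hT : 0 < T) {B η : ℝ} (h0 : 0 ≤ η) (h1 : η ≤ 1)
    (hv : ((W : ℝ) + N) ^ (N + 1) < (N + 1) * B * (T : ℝ) ^ N) :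
    ∃ L : (Fin N → ℕ) → ℝ, Adm T η L ∧ ∀ c, tot c < T → OO T W L N c ≤ L c + B + η * T := by
  obtain ⟨J, hJ, hs⟩ := exists_sub0 N T W hT hv
  have h2 : 0 ≤ 1 - η := sub_nonneg.2 h1
  refine ⟨fun c => (1 - η) * J c + η * (tot c + J 0), ⟨fun c i hc => ?_, fun c i hc => ?_,
    fun c i i' hc hi => ?_⟩, fun c hc => ?_⟩
  · have := mul_le_mul_of_nonneg_left (hJ.lo c i hc) h2
    rw [tot_up]
    push_cast
    linarith
  · have := mul_le_mul_of_nonneg_left (hJ.hi c i hc) h2
    rw [tot_up]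
    push_cast
    linarith
  · have := mul_le_mul_of_nonneg_left (hJ.ord c i i' hc hi) h2
    rw [tot_up, tot_up]
    linarith
  · have h3 := OO_le W (x := η * T) (L := fun c => (1 - η) * J c + η * (tot c + J 0)) (L' := J)
      (fun c hc => by
        have h4 := mul_le_mul_of_nonneg_left (hJ.osc hc).1 h0
        have h5 : (tot c : ℝ) ≤ T := by exact_mod_cast hc.le
        have h6 := mul_le_mul_of_nonneg_left h5 h0
        linarith) N c hc
    have h4 := mul_le_mul_of_nonneg_left (hJ.osc hc).2 h0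
    have h5 := hs c hc
    linarith

end Pool.Agent.Lib.BallU
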